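import Pool.Agent.H50.CP.Lower

/-! # Asymptotic forms of the lower bounds -/

open scoped Classical
open Finset H630VC

namespace H50CP

theorem exists_params (η : ℝ) (hη : 0 < η) :
    ∃ N : ℕ, ∀ n : ℕ, N ≤ n → ∀ t k w : ℕ, t ≤ n → k ≤ n → 1 ≤ w →
      (n : ℝ) ^ (1 + η) * w ^ 3 ≤ t * Real.sqrt k →
      ∃ L a : ℕ, 1 ≤ n ∧ 2 ≤ L ∧ 1 ≤ a ∧ 4 * n ≤ t * a ∧ 4 * L ≤ t ∧ QQ n L a w ≤ n ∧
        25600 * a ^ 2 * (w * L) ^ 6 * (Nat.log 2 n + 1) ^ 2 ≤ k ∧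
        (n : ℝ) ^ (η / 4) + 1 ≤ L := by
  obtain ⟨N, hN⟩ := eventually_log (10 ^ 11) (η / 2) (by positivity)
  refine ⟨max N 1, fun n hn t k w htn hkn hw h => ?_⟩
  have hw' : (1 : ℝ) ≤ w := by exact_mod_cast hw
  have hw3 : (1 : ℝ) ≤ (w : ℝ) ^ 3 := one_le_pow₀ hw'
  have hww3 : (w : ℝ) ≤ (w : ℝ) ^ 3 := by
    calc (w : ℝ) = w ^ 1 := (pow_one _).symm
      _ ≤ w ^ 3 := pow_le_pow_right₀ hw' (by norm_num)
  have hn1 : 1 ≤ n := (le_max_right _ _).trans hn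
  have hn0 : (1 : ℝ) ≤ n := by exact_mod_cast hn1
  have hnpos : (0 : ℝ) < n := by linarith
  have hlog := hN n ((le_max_left _ _).trans hn)
  set lam : ℝ := (Nat.log 2 n : ℝ) + 1 with hlam
  have hlam1 : 1 ≤ lam := by
    have : (0 : ℝ) ≤ (Nat.log 2 n : ℝ) := by positivity
    linarith
  set x : ℝ := (n : ℝ) ^ (η / 4) with hx
  have hx1 : 1 ≤ x := Real.one_le_rpow hn0 (by positivity)
  have hx2 : (n : ℝ) ^ (η / 2) = x ^ 2 := by
    rw [hx, ← Real.rpow_natCast, ← Real.rpow_mul (by positivity)]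
    congr 1; push_cast; ring
  have hx4 : (n : ℝ) ^ η = x ^ 4 := by
    rw [hx, ← Real.rpow_natCast, ← Real.rpow_mul (by positivity)]
    congr 1; push_cast; ring
  rw [hx2] at hlog
  have h1η : (n : ℝ) ^ (1 + η) = n * x ^ 4 := by
    rw [Real.rpow_add hnpos, Real.rpow_one, hx4]
  rw [h1η] at h
  have hk0 : (0 : ℝ) ≤ k := by positivity
  have hsk : Real.sqrt k ≤ n := by
    rw [Real.sqrt_le_left (by positivity)]
    have : (k : ℝ) ≤ n := by exact_mod_cast hkn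
    nlinarith
  have ht0' : (0 : ℝ) ≤ t := by positivity
  have htxw : x ^ 4 * w ^ 3 ≤ t := by
    have h1 : (n : ℝ) * (x ^ 4 * w ^ 3) ≤ n * t := by
      calc (n : ℝ) * (x ^ 4 * w ^ 3) = n * x ^ 4 * w ^ 3 := by ring
        _ ≤ t * Real.sqrt k := h
        _ ≤ t * n := by gcongr
        _ = n * t := by ring
    exact le_of_mul_le_mul_left h1 hnpos
  have htx : x ^ 4 ≤ t := by
    have h0 : (0 : ℝ) ≤ x ^ 4 := by positivity
    nlinarith
  have hx4' : (1 : ℝ) ≤ x ^ 4 := one_le_pow₀ hx1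
  have ht0 : (0 : ℝ) < t := by linarith
  have htn' : (t : ℝ) ≤ n := by exact_mod_cast htn
  -- the square
  have hsq : (n : ℝ) ^ 2 * x ^ 8 * w ^ 6 ≤ t ^ 2 * k := by
    have h1 : ((n : ℝ) * x ^ 4 * w ^ 3) ^ 2 ≤ (t * Real.sqrt k) ^ 2 :=
      pow_le_pow_left₀ (by positivity) h 2
    have h2 : (t * Real.sqrt k) ^ 2 = (t : ℝ) ^ 2 * k := by
      rw [mul_pow, Real.sq_sqrt hk0]
    calc (n : ℝ) ^ 2 * x ^ 8 * w ^ 6 = ((n : ℝ) * x ^ 4 * w ^ 3) ^ 2 := by ring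
      _ ≤ _ := h1
      _ = _ := h2
  have hdiv : (n : ℝ) / t * ((n : ℝ) / t) * x ^ 8 * w ^ 6 ≤ k := by
    have : (n : ℝ) / t * ((n : ℝ) / t) * x ^ 8 * w ^ 6
        = ((n : ℝ) ^ 2 * x ^ 8 * w ^ 6) / t ^ 2 := by
      field_simp
    rw [this, div_le_iff₀ (by positivity)]
    linarith
  have hnt1 : 1 ≤ (n : ℝ) / t := by
    rw [le_div_iff₀ ht0]
    linarith
  set L : ℕ := ⌈x⌉₊ + 1 with hLdef
  have hLx : x + 1 ≤ (L : ℝ) := by
    rw [hLdef]; push_cast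
    linarith [Nat.le_ceil x]
  have hLx' : (L : ℝ) ≤ 3 * x := by
    rw [hLdef]; push_cast
    have := (Nat.ceil_lt_add_one (show (0 : ℝ) ≤ x by linarith)).le
    linarith
  set a : ℕ := ⌈4 * (n : ℝ) / t⌉₊ with ha
  have ha_ge : 4 * (n : ℝ) / t ≤ a := Nat.le_ceil _
  have ha_le : (a : ℝ) ≤ 5 * ((n : ℝ) / t) := by
    have h1 : (a : ℝ) ≤ 4 * (n : ℝ) / t + 1 := (Nat.ceil_lt_add_one (by positivity)).le
    have h2 : 4 * (n : ℝ) / t = 4 * ((n : ℝ) / t) := by ring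
    rw [h2] at h1
    linarith
  have hlamx : 10 ^ 11 * lam ≤ x ^ 2 := by
    have : lam ≤ lam ^ 2 := by nlinarith
    nlinarith
  have hx2' : (0 : ℝ) < x ^ 2 := by positivity
  have hL2 : 2 ≤ L := by
    have : 0 < ⌈x⌉₊ := Nat.ceil_pos.2 (by linarith)
    omega
  refine ⟨L, a, hn1, hL2, ?_, ?_, ?_, ?_, ?_, hLx⟩
  · have h1 : 0 < 4 * (n : ℝ) / t := by positivity
    exact Nat.one_le_iff_ne_zero.2 (Nat.ceil_pos.2 h1).ne'
  · have h1 : (4 * n : ℝ) ≤ (t : ℝ) * a := by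
      rw [div_le_iff₀ ht0] at ha_ge
      linarith
    exact_mod_cast h1
  · have h1 : (4 * L : ℝ) ≤ t := by
      have h2 : (12 : ℝ) ≤ x ^ 2 := by linarith
      have h3 : 12 * x ≤ x ^ 4 := by
        calc 12 * x ≤ x ^ 2 * x := by gcongr
          _ ≤ x ^ 2 * x * x := by
              have : 0 ≤ x ^ 2 * x := by positivity
              nlinarith
          _ = x ^ 4 := by ring
      linarith
    exact_mod_cast h1
  · have h1 : ((QQ n L a w : ℕ) : ℝ) ≤ n := by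
      unfold QQ
      push_cast
      rw [← hlam]
      have h3 : 75 * lam * x * w ≤ t := by
        refine le_trans ?_ htxw
        have h4 : 75 * lam * x ≤ x ^ 4 := by
          calc 75 * lam * x ≤ x ^ 2 * x := by
                have : 75 * lam ≤ x ^ 2 := by linarith
                gcongr
            _ ≤ x ^ 2 * x * x := by
                have : 0 ≤ x ^ 2 * x := by positivity
                nlinarith
            _ = x ^ 4 := by ring
        exact mul_le_mul h4 hww3 (by positivity) (by positivity)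
      calc (a : ℝ) * (5 * (w * L) * lam) ≤ (5 * ((n : ℝ) / t)) * (5 * (w * (3 * x)) * lam) := by
            gcongr
        _ = (n : ℝ) / t * (75 * lam * x * w) := by ring
        _ ≤ (n : ℝ) / t * t := by gcongr
        _ = n := by field_simp
    exact_mod_cast h1
  · have h1 : (25600 * a ^ 2 * (w * L) ^ 6 * lam ^ 2 : ℝ) ≤ k := by
      calc (25600 * (a : ℝ) ^ 2 * (w * L) ^ 6 * lam ^ 2 : ℝ)
          ≤ 25600 * (5 * ((n : ℝ) / t)) ^ 2 * (w * (3 * x)) ^ 6 * lam ^ 2 := by gcongr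
        _ = ((n : ℝ) / t * ((n : ℝ) / t) * x ^ 6 * w ^ 6) * (466560000 * lam ^ 2) := by ring
        _ ≤ ((n : ℝ) / t * ((n : ℝ) / t) * x ^ 6 * w ^ 6) * (x ^ 2) := by
            gcongr
            nlinarith
        _ = (n : ℝ) / t * ((n : ℝ) / t) * x ^ 8 * w ^ 6 := by ring
        _ ≤ k := hdiv
    rw [hlam] at h1
    exact_mod_cast h1

theorem two_pow_le {x : ℝ} {L s : ℕ} (hx : 0 ≤ x) (hL : x + 1 ≤ L) (h : 2 ^ L ≤ s + 1) :
    (2 : ℝ) ^ x ≤ s := by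
  have h1 : (2 : ℝ) ^ (x + 1) ≤ (2 : ℝ) ^ (L : ℝ) :=
    Real.rpow_le_rpow_of_exponent_le (by norm_num) hL
  rw [Real.rpow_add (by norm_num), Real.rpow_one, Real.rpow_natCast] at h1
  have h2 : ((2 ^ L : ℕ) : ℝ) ≤ ((s + 1 : ℕ) : ℝ) := by exact_mod_cast h
  have h3 : (1 : ℝ) ≤ (2 : ℝ) ^ x := Real.one_le_rpow (by norm_num) hx
  push_cast at h2
  linarith

/-- the lower bounds for all kinds of information `X` about graphs that contain the disjoint unions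
of cliques -/
theorem asymp_gen (η : ℝ) (hη : 0 < η) :
    ∃ N : ℕ, ∀ n t k w D : ℕ, N ≤ n → t ≤ n → k ≤ n → 1 ≤ w → 1 ≤ D →
      (n : ℝ) ^ (1 + η) * ((w * D : ℕ) : ℝ) ^ 3 ≤ t * Real.sqrt k → ∃ A : ℕ, 0 < A ∧ A ≤ k ∧
      (∀ (X : Type) (Γ : X → SimpleGraph (Fin n)) (𝓒 : Set (Finset (Fin n)))
        (ξ : (Fin n → Fin A) → X), (∀ β, Γ (ξ β) = classGraph β) →
        (∀ T : Finset (Fin n), T.card ≤ t → T ∈ 𝓒) →
        ∀ l : List (Finset (Comparison X (Fin n))), Argument Γ 𝓒 w D l →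
        (∃ b ∈ l, ∀ β, ∀ T : Finset (Fin n), T.card ≤ t → ∃ c ∈ b, ¬ c.Holds (ξ β) T) →
        (2 : ℝ) ^ ((n : ℝ) ^ (η / 4)) ≤ D * l.length) ∧
      ∀ (X : Type) (Γ : X → SimpleGraph (Fin n ⊕ Fin n)) (𝓒 : Set (Finset (Fin n ⊕ Fin n)))
        (ξ : (Fin n → Fin A) → X), (∀ β, Γ (ξ β) = joinGraph (classGraph β)) →
        (∀ T : Finset (Fin n ⊕ Fin n), T.card ≤ n + t → T ∈ 𝓒) →
        ∀ l : List (Finset (Comparison X (Fin n ⊕ Fin n))), Argument Γ 𝓒 w D l →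
        (∃ b ∈ l, ∀ β, ∀ T : Finset (Fin n ⊕ Fin n), T.card ≤ n + t →
          ∃ c ∈ b, ¬ c.Holds (ξ β) T) →
        (2 : ℝ) ^ ((n : ℝ) ^ (η / 4)) ≤ D * l.length := by
  obtain ⟨N, hN⟩ := exists_params η hη
  refine ⟨N, fun n t k w D hn ht hk hw hD h => ?_⟩
  have hwD : 1 ≤ w * D := Nat.mul_pos hw hD
  obtain ⟨L, a, g1, g2, g3, g4, g5, g6, g7, g8⟩ := hN n hn t k (w * D) ht hk hwD h
  have hQ : 0 < QQ n L a (w * D) := by
    unfold QQ
    positivity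
  have hc : 0 < wcols (w * D) L (QQ n L a (w * D)) := by
    unfold wcols
    positivity
  refine ⟨wcols (w * D) L (QQ n L a (w * D)), hc, (cols_le n L a (w * D) (by omega) hwD).trans g7,
    ?_, ?_⟩
  · intro X Γ 𝓒 ξ hξ h𝓒 l hl hno
    have := two_pow_le (by positivity) g8 (lower_all g1 g2 g3 hw hD g4 g5 g6 ξ hξ h𝓒 hl hno)
    push_cast at this
    exact this
  · intro X Γ 𝓒 ξ hξ h𝓒 l hl hno
    have := two_pow_le (by positivity) g8 (lower_pm g1 g2 g3 hw hD g4 g5 g6 ξ hξ h𝓒 hl hno)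
    push_cast at this
    exact this

/-- the partitioned graph of a colouring -/
def partAll {n A k : ℕ} (hA : A ≤ k) (β : Fin n → Fin A) :
    Partitioned (Set.univ : Set (SimpleGraph (Fin n))) k :=
  ⟨(classGraph β, fun v => Fin.castLE hA (β v)), Set.mem_univ _,
    fun _ _ h h' => ⟨h, Fin.castLE_injective hA h'⟩⟩

/-- the partitioned graph of a colouring, with a perfect matching -/
def partPm {n A k : ℕ} (hA : A ≤ k) (hk : 0 < k) (β : Fin n → Fin A) :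
    Partitioned (pmGraphs n) k :=
  ⟨(joinGraph (classGraph β), Sum.elim (fun _ => ⟨0, hk⟩) (fun v => Fin.castLE hA (β v))),
    joinGraph_mem _, by
      rintro (i | i) (j | j) h h'
      · exact ⟨h, Or.inl ⟨i, rfl⟩⟩
      · exact ⟨h, Or.inl ⟨i, rfl⟩⟩
      · exact ⟨h, Or.inr (Or.inl ⟨j, rfl⟩)⟩
      · exact ⟨h, Or.inr (Or.inr ⟨i, j, rfl, rfl, fun e => h (congrArg _ e),
          Fin.castLE_injective hA h'⟩)⟩⟩

/-- the lower bounds for refutations -/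
theorem asymp (η : ℝ) (hη : 0 < η) :
    ∃ N : ℕ, ∀ n t k w D : ℕ, N ≤ n → t ≤ n → k ≤ n → 1 ≤ w → 1 ≤ D →
      (n : ℝ) ^ (1 + η) * ((w * D : ℕ) : ℝ) ^ 3 ≤ t * Real.sqrt k →
      (∀ l, Refutes (Set.univ : Set (SimpleGraph (Fin n))) t k w D l →
        (2 : ℝ) ^ ((n : ℝ) ^ (η / 4)) ≤ D * l.length) ∧
      ∀ l, Refutes (pmGraphs n) (n + t) k w D l →
        (2 : ℝ) ^ ((n : ℝ) ^ (η / 4)) ≤ D * l.length := by
  obtain ⟨N, hN⟩ := asymp_gen η hη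
  refine ⟨N, fun n t k w D hn ht hk hw hD h => ?_⟩
  obtain ⟨A, hA, hAk, h1, h2⟩ := hN n t k w D hn ht hk hw hD h
  constructor
  · rintro l ⟨hl, a, ha, hno⟩
    exact h1 _ _ _ (partAll hAk) (fun _ => rfl) (fun _ h => h) l hl
      ⟨a, ha, fun β T hT => hno _ T hT⟩
  · rintro l ⟨hl, a, ha, hno⟩
    exact h2 _ _ _ (partPm hAk (hA.trans_le hAk)) (fun _ => rfl) (fun _ h => h) l hl
      ⟨a, ha, fun β T hT => hno _ T hT⟩

end H50CP
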