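import Pool.Graph.R_seed8.H630VC.Final3

/-!
# Proofs of lower bounds for vertex covers: definitions

`X` is a type of graphs with further information: `Γ x` is the graph of `x`.  We study proofs of
lower bounds for the sizes of the vertex covers `C` of these graphs.  The lines of the proofs
compare functions of `x` with functions of `C`.
-/

open scoped Classical
open Finset

namespace H50CP

/-- the comparison `g x ≤ F C` of an arbitrary real function of `x` with an arbitrary real function
of the set `C` of vertices -/
structure Comparison (X V : Type*) where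
  /-- the function of `x` -/
  g : X → ℝ
  /-- the function of `C` -/
  F : Finset V → ℝ

/-- the comparison is true for `x` and `C` -/
def Comparison.Holds {X V : Type*} (c : Comparison X V) (x : X) (C : Finset V) : Prop :=
  c.g x ≤ c.F C

/-- the pairs of `E` which are edges of `G` are covered by `C` -/
def Covers {V : Type*} (G : SimpleGraph V) (C : Finset V) (E : Finset (V × V)) : Prop :=
  ∀ e ∈ E, G.Adj e.1 e.2 → e.1 ∈ C ∨ e.2 ∈ C

/-- Arguments about the vertex covers `C ∈ 𝓒` of the graphs `Γ x` (the last line first).  A line is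
a set of at most `D` comparisons; it holds if all of them hold.  Each line follows from at most `w`
premises, which are earlier lines (those in `B`) and the covering constraints of single pairs of
vertices (those in `E`): it holds for all `x` and `C` for which the premises hold. -/
inductive Argument {X V : Type*} (Γ : X → SimpleGraph V) (𝓒 : Set (Finset V)) (w D : ℕ) :
    List (Finset (Comparison X V)) → Prop
  | nil : Argument Γ 𝓒 w D []
  | step {l : List (Finset (Comparison X V))} (a : Finset (Comparison X V)) (E : Finset (V × V))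
      (B : Finset (Finset (Comparison X V))) : Argument Γ 𝓒 w D l → a.card ≤ D →
      E.card + B.card ≤ w → (∀ b ∈ B, b ∈ l) →
      (∀ x, ∀ C ∈ 𝓒, Covers (Γ x) C E → (∀ b ∈ B, ∀ c ∈ b, c.Holds x C) →
        ∀ c ∈ a, c.Holds x C) → Argument Γ 𝓒 w D (a :: l)

/-- `l` proves that `A G ≤ ρ * C.card` for all vertex covers `C` of graphs `G` of the class `𝓖`:
this comparison occurs in a line of the argument `l` -/
def ProvesRatio {V : Type*} (𝓖 : Set (SimpleGraph V)) (w D : ℕ) (A : SimpleGraph V → ℝ) (ρ : ℝ)
    (l : List (Finset (Comparison 𝓖 V))) : Prop :=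
  Argument (fun G : 𝓖 => G.1) Set.univ w D l ∧
    ∃ a ∈ l, (⟨fun G => A G.1, fun C => ρ * C.card⟩ : Comparison 𝓖 V) ∈ a

/-- `A G` is at least the vertex cover number for all graphs `G` of the class `𝓖`; for instance,
`A G` may be the size of the vertex cover of `G` which is printed by some algorithm -/
def UpperBound {V : Type*} (𝓖 : Set (SimpleGraph V)) (A : SimpleGraph V → ℝ) : Prop :=
  ∀ G ∈ 𝓖, ∃ C : Finset V, H630VC.IsCover G C ∧ (C.card : ℝ) ≤ A G

/-- the graphs for which the `n` disjoint pairs `φ (inl i)`, `φ (inr i)` are a maximal matching: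
they are edges, and every edge has an end in one of them -/
def matched {V : Type*} {n : ℕ} (φ : Fin n ⊕ Fin n ↪ V) : Set (SimpleGraph V) :=
  {G | (∀ i, G.Adj (φ (Sum.inl i)) (φ (Sum.inr i))) ∧
    ∀ u v, G.Adj u v → u ∈ Set.range φ ∨ v ∈ Set.range φ}

/-- the graphs of the class `𝓖` together with a partition of the vertices into `k` cliques (some of
which may be empty) -/
def Partitioned {V : Type*} (𝓖 : Set (SimpleGraph V)) (k : ℕ) : Type _ :=
  {p : SimpleGraph V × (V → Fin k) // p.1 ∈ 𝓖 ∧ ∀ u v, u ≠ v → p.2 u = p.2 v → p.1.Adj u v}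

/-- `l` refutes the existence of a vertex cover with at most `t` vertices of a graph of the class
`𝓖` with a partition of the vertices into `k` cliques: a line of the argument `l` is always
false -/
def Refutes {V : Type*} (𝓖 : Set (SimpleGraph V)) (t k w D : ℕ)
    (l : List (Finset (Comparison (Partitioned 𝓖 k) V))) : Prop :=
  Argument (fun p : Partitioned 𝓖 k => p.1.1) {C | C.card ≤ t} w D l ∧
    ∃ a ∈ l, ∀ p : Partitioned 𝓖 k, ∀ C : Finset V, C.card ≤ t → ∃ c ∈ a, ¬ c.Holds p C

/-! ## Cutting planes -/

/-- the variables: `x v` says that `v` belongs to `C`, `y u v` that `u` and `v` are adjacent, and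
`z v j` that `v` belongs to the clique `j` -/
inductive Var (V : Type*) (k : ℕ)
  | x (v : V) : Var V k
  | y (u v : V) : Var V k
  | z (v : V) (j : Fin k) : Var V k

/-- the linear inequality `∑ w, a w * w ≥ b` with integer coefficients -/
structure Ineq (V : Type*) (k : ℕ) where
  /-- the coefficients -/
  a : Var V k → ℤ
  /-- the right-hand side -/
  b : ℤ

/-- the linear form `w` -/
noncomputable def var {V : Type*} {k : ℕ} (w : Var V k) : Var V k → ℤ := Pi.single w 1

/-- the linear form `- ∑ v, x v` -/
def sizeForm {V : Type*} {k : ℕ} : Var V k → ℤ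
  | Var.x _ => -1
  | _ => 0

/-- the linear form `∑ j, z v j` -/
noncomputable def cliqueForm {V : Type*} {k : ℕ} (v : V) : Var V k → ℤ
  | Var.z u _ => if u = v then 1 else 0
  | _ => 0

/-- The axioms; `M` is a set of pairs of vertices which are known to be adjacent. -/
inductive Axiom {V : Type*} (M : Set (V × V)) (t k : ℕ) : Ineq V k → Prop
  /-- `w ≥ 0` -/
  | nonneg (w : Var V k) : Axiom M t k ⟨var w, 0⟩
  /-- `w ≤ 1` -/
  | le_one (w : Var V k) : Axiom M t k ⟨- var w, -1⟩
  /-- at most `t` vertices belong to `C` -/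
  | size : Axiom M t k ⟨sizeForm, -t⟩
  /-- the edge `u v` is covered: `x u + x v ≥ y u v` -/
  | cover (u v : V) : Axiom M t k ⟨var (Var.x u) + var (Var.x v) - var (Var.y u v), 0⟩
  /-- adjacency is symmetric: `y u v ≥ y v u` -/
  | symm (u v : V) : Axiom M t k ⟨var (Var.y u v) - var (Var.y v u), 0⟩
  /-- the known edges: `y u v ≥ 1` -/
  | known (u v : V) : (u, v) ∈ M → Axiom M t k ⟨var (Var.y u v), 1⟩
  /-- every vertex belongs to a clique: `∑ j, z v j ≥ 1` -/
  | some_clique (v : V) : Axiom M t k ⟨cliqueForm v, 1⟩
  /-- no vertex belongs to two cliques: `z v i + z v j ≤ 1` -/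
  | one_clique (v : V) (i j : Fin k) : i ≠ j →
      Axiom M t k ⟨- var (Var.z v i) - var (Var.z v j), -1⟩
  /-- vertices of a clique are adjacent: `y u v ≥ z u j + z v j - 1` -/
  | clique (u v : V) (j : Fin k) : u ≠ v →
      Axiom M t k ⟨var (Var.y u v) - var (Var.z u j) - var (Var.z v j), -1⟩

/-- Cutting planes derivations (the last line first): axioms, nonnegative integer combinations of
two earlier lines, and the Gomory-Chvátal rule: if all coefficients are divisible by `d > 0`, then
the inequality may be divided by `d` and the right-hand side may be rounded up. -/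
inductive CuttingPlanes {V : Type*} (M : Set (V × V)) (t k : ℕ) : List (Ineq V k) → Prop
  | nil : CuttingPlanes M t k []
  | ax {l : List (Ineq V k)} {e : Ineq V k} : CuttingPlanes M t k l → Axiom M t k e →
      CuttingPlanes M t k (e :: l)
  | comb {l : List (Ineq V k)} {e f : Ineq V k} (p q : ℕ) : CuttingPlanes M t k l →
      e ∈ l → f ∈ l → CuttingPlanes M t k (⟨(p : ℤ) • e.a + (q : ℤ) • f.a, p * e.b + q * f.b⟩ :: l)
  | div {l : List (Ineq V k)} {e : Ineq V k} (d : ℕ) (a : Var V k → ℤ) :
      CuttingPlanes M t k l → e ∈ l → 0 < d → (∀ w, e.a w = d * a w) →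
      CuttingPlanes M t k (⟨a, ⌈(e.b : ℚ) / d⌉⟩ :: l)

/-- a cutting planes refutation: a derivation of an inequality `0 ≥ b` with `b ≥ 1` -/
def CPRefutes {V : Type*} (M : Set (V × V)) (t k : ℕ) (l : List (Ineq V k)) : Prop :=
  CuttingPlanes M t k l ∧ ∃ e ∈ l, e.a = 0 ∧ 1 ≤ e.b

/-- the fixed perfect matching of the graphs in `pmGraphs n` -/
def matching (n : ℕ) : Set ((Fin n ⊕ Fin n) × (Fin n ⊕ Fin n)) :=
  {e | ∃ i, e = (Sum.inl i, Sum.inr i)}

end H50CP
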