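import Pool.Agent.H50.CP.Embed

/-! # Short cutting planes refutations on graphs with a perfect matching -/

open scoped Classical
open Finset H630VC

namespace H50CP

/-- the running sum: the edges of the matching with indices in `s` have been added -/
noncomputable def running (n t k : ℕ) (s : Finset (Fin n)) : Ineq (Fin n ⊕ Fin n) k where
  a := fun w => match w with
    | Var.x (Sum.inl i) => if i ∈ s then 0 else -1
    | Var.x (Sum.inr i) => if i ∈ s then 0 else -1
    | _ => 0
  b := -t + s.card

theorem running_deriv (n t k : ℕ) (s : Finset (Fin n)) :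
    ∃ l : List (Ineq (Fin n ⊕ Fin n) k), CuttingPlanes (matching n) t k l ∧ running n t k s ∈ l ∧
      l.length = 4 * s.card + 1 := by
  induction s using Finset.induction_on with
  | empty =>
    refine ⟨[running n t k ∅], ?_, by simp, by simp⟩
    have h : running n t k ∅ = ⟨sizeForm, -t⟩ := by
      unfold running
      congr 1
      · funext w
        rcases w with (i | i) | _ | _ <;> simp [sizeForm]
      · simp
    rw [h]
    exact CuttingPlanes.ax CuttingPlanes.nil Axiom.size
  | insert i s hi ih =>
    obtain ⟨l, h1, h2, h3⟩ := ih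
    set e1 : Ineq (Fin n ⊕ Fin n) k :=
      ⟨var (Var.x (Sum.inl i)) + var (Var.x (Sum.inr i)) -
        var (Var.y (Sum.inl i) (Sum.inr i)), 0⟩ with he1
    set e2 : Ineq (Fin n ⊕ Fin n) k := ⟨var (Var.y (Sum.inl i) (Sum.inr i)), 1⟩ with he2
    set e3 : Ineq (Fin n ⊕ Fin n) k :=
      ⟨((1 : ℕ) : ℤ) • e1.a + ((1 : ℕ) : ℤ) • e2.a, (1 : ℕ) * e1.b + (1 : ℕ) * e2.b⟩ with he3
    set e4 : Ineq (Fin n ⊕ Fin n) k :=
      ⟨((1 : ℕ) : ℤ) • e3.a + ((1 : ℕ) : ℤ) • (running n t k s).a,
        (1 : ℕ) * e3.b + (1 : ℕ) * (running n t k s).b⟩ with he4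
    have g1 : CuttingPlanes (matching n) t k (e1 :: l) := CuttingPlanes.ax h1 (Axiom.cover _ _)
    have g2 : CuttingPlanes (matching n) t k (e2 :: e1 :: l) :=
      CuttingPlanes.ax g1 (Axiom.known _ _ ⟨i, rfl⟩)
    have g3 : CuttingPlanes (matching n) t k (e3 :: e2 :: e1 :: l) :=
      CuttingPlanes.comb 1 1 g2 (by simp) (by simp)
    have g4 : CuttingPlanes (matching n) t k (e4 :: e3 :: e2 :: e1 :: l) :=
      CuttingPlanes.comb 1 1 g3 (by simp) (by simp [h2])
    have h4 : running n t k (insert i s) = e4 := by
      rw [he4, he3, he1, he2]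
      unfold running
      congr 1
      · funext w
        rcases w with (j | j) | ⟨u, v⟩ | ⟨u, v⟩
        · by_cases hj : j = i
          · subst hj
            simp [var, hi]
          · simp [var, hj]
        · by_cases hj : j = i
          · subst hj
            simp [var, hi]
          · simp [var, hj]
        · simp [var]
        · simp [var]
      · rw [card_insert_of_notMem hi]
        push_cast
        ring
    refine ⟨_, g4, ?_, ?_⟩
    · rw [h4]
      exact List.mem_cons_self
    · simp only [List.length_cons]
      rw [card_insert_of_notMem hi, h3]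
      ring

/-- if `t < n` there is a short refutation -/
theorem cp_upper (n t k : ℕ) (h : t < n) :
    ∃ l : List (Ineq (Fin n ⊕ Fin n) k), CPRefutes (matching n) t k l ∧
      l.length = 4 * n + 1 := by
  obtain ⟨l, h1, h2, h3⟩ := running_deriv n t k univ
  refine ⟨l, ⟨h1, _, h2, ?_, ?_⟩, by simpa using h3⟩
  · unfold running
    funext w
    rcases w with (i | i) | _ | _ <;> simp
  · unfold running
    simp
    omega

end H50CP
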