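import Pool.Agent.H50.CP.Defs

/-! # Cutting planes refutations are refutations in the sense of `Refutes` -/

open scoped Classical
open Finset H630VC

namespace H50CP

variable {V : Type*} [Fintype V] {𝓖 : Set (SimpleGraph V)} {t k : ℕ}

/-- the values of the variables in a situation -/
noncomputable def val (G : SimpleGraph V) (β : V → Fin k) (C : Finset V) : Var V k → ℤ
  | Var.x v => if v ∈ C then 1 else 0
  | Var.y u v => if G.Adj u v then 1 else 0
  | Var.z v j => if β v = j then 1 else 0

/-- the part of a linear form which depends on `C` -/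
noncomputable def linC (a : Var V k → ℤ) (C : Finset V) : ℤ :=
  ∑ v, a (Var.x v) * (if v ∈ C then 1 else 0)

/-- the other part -/
noncomputable def linG (a : Var V k → ℤ) (G : SimpleGraph V) (β : V → Fin k) : ℤ :=
  (∑ u, ∑ v, a (Var.y u v) * (if G.Adj u v then 1 else 0)) +
    ∑ v, ∑ j, a (Var.z v j) * (if β v = j then 1 else 0)

theorem linC_comb (p q : ℤ) (a a' : Var V k → ℤ) (C : Finset V) :
    linC (p • a + q • a') C = p * linC a C + q * linC a' C := by
  simp only [linC, Pi.add_apply, Pi.smul_apply, smul_eq_mul, mul_sum, ← sum_add_distrib]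
  refine sum_congr rfl fun v _ => by ring

theorem linG_comb (p q : ℤ) (a a' : Var V k → ℤ) (G : SimpleGraph V) (β : V → Fin k) :
    linG (p • a + q • a') G β = p * linG a G β + q * linG a' G β := by
  have h1 : linG (p • a + q • a') G β =
      (∑ u, ∑ v, (p * (a (Var.y u v) * (if G.Adj u v then 1 else 0)) +
        q * (a' (Var.y u v) * (if G.Adj u v then 1 else 0)))) +
      ∑ v, ∑ j, (p * (a (Var.z v j) * (if β v = j then 1 else 0)) +
        q * (a' (Var.z v j) * (if β v = j then 1 else 0))) := by
    unfold linG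
    congr 1
    · refine sum_congr rfl fun u _ => sum_congr rfl fun v _ => ?_
      simp only [Pi.add_apply, Pi.smul_apply, smul_eq_mul]
      ring
    · refine sum_congr rfl fun u _ => sum_congr rfl fun v _ => ?_
      simp only [Pi.add_apply, Pi.smul_apply, smul_eq_mul]
      ring
  rw [h1]
  simp only [sum_add_distrib, ← mul_sum]
  unfold linG
  ring

/-- the linear form -/
noncomputable def lin (a : Var V k → ℤ) (s : Partitioned 𝓖 k) (C : Finset V) : ℤ :=
  linC a C + linG a s.1.1 s.1.2

theorem lin_comb (p q : ℤ) (a a' : Var V k → ℤ) (s : Partitioned 𝓖 k) (C : Finset V) :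
    lin (p • a + q • a') s C = p * lin a s C + q * lin a' s C := by
  unfold lin
  rw [linC_comb, linG_comb]
  ring

theorem lin_add (a a' : Var V k → ℤ) (s : Partitioned 𝓖 k) (C : Finset V) :
    lin (a + a') s C = lin a s C + lin a' s C := by
  have := lin_comb 1 1 a a' s C
  simpa using this

theorem lin_neg (a : Var V k → ℤ) (s : Partitioned 𝓖 k) (C : Finset V) :
    lin (-a) s C = - lin a s C := by
  have := lin_comb (-1) 0 a a s C
  simpa using this

theorem lin_sub (a a' : Var V k → ℤ) (s : Partitioned 𝓖 k) (C : Finset V) :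
    lin (a - a') s C = lin a s C - lin a' s C := by
  rw [sub_eq_add_neg, lin_add, lin_neg]
  ring

theorem lin_zero (s : Partitioned 𝓖 k) (C : Finset V) : lin 0 s C = 0 := by
  have := lin_comb 0 0 0 0 s C
  simpa using this

theorem lin_var (w : Var V k) (s : Partitioned 𝓖 k) (C : Finset V) :
    lin (var w) s C = val s.1.1 s.1.2 C w := by
  unfold lin linC linG var
  cases w with
  | x v => simp [Pi.single_apply, val]
  | y u v =>
    have h : ∀ u' v' : V, (Pi.single (Var.y u v) 1 : Var V k → ℤ) (Var.y u' v')
        = if u' = u then (if v' = v then 1 else 0) else 0 := by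
      intro u' v'
      rw [Pi.single_apply]
      by_cases h1 : u' = u <;> by_cases h2 : v' = v <;> simp [h1, h2]
    have h2 : (∑ u', ∑ v', (if u' = u then (if v' = v then (1 : ℤ) else 0) else 0) *
        (if s.1.1.Adj u' v' then 1 else 0)) = if s.1.1.Adj u v then 1 else 0 := by
      rw [Finset.sum_eq_single u, Finset.sum_eq_single v]
      · simp
      · intro v' _ hv'
        simp [hv']
      · simp
      · intro u' _ hu'
        simp [hu']
      · simp
    simp only [h, val, h2]
    simp
  | z v j =>
    have h : ∀ (v' : V) (j' : Fin k), (Pi.single (Var.z v j) 1 : Var V k → ℤ) (Var.z v' j')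
        = if v' = v then (if j' = j then 1 else 0) else 0 := by
      intro u' v'
      rw [Pi.single_apply]
      by_cases h1 : u' = v <;> by_cases h2 : v' = j <;> simp [h1, h2]
    simp only [h, val]
    simp

/-- the comparison of an inequality -/
noncomputable def lineOf (𝓖 : Set (SimpleGraph V)) (e : Ineq V k) :
    Comparison (Partitioned 𝓖 k) V where
  g := fun s => ((e.b - linG e.a s.1.1 s.1.2 : ℤ) : ℝ)
  F := fun C => ((linC e.a C : ℤ) : ℝ)

theorem holds_lineOf (e : Ineq V k) (s : Partitioned 𝓖 k) (C : Finset V) :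
    (lineOf 𝓖 e).Holds s C ↔ e.b ≤ lin e.a s C := by
  unfold Comparison.Holds lineOf lin
  simp only [Int.cast_le]
  constructor <;> intro h <;> linarith

omit [Fintype V] in
/-- the value of a variable is a bit -/
theorem val_nonneg (G : SimpleGraph V) (β : V → Fin k) (C : Finset V) (w : Var V k) :
    0 ≤ val G β C w := by
  cases w <;> simp only [val] <;> split_ifs <;> norm_num

omit [Fintype V] in
theorem val_le_one (G : SimpleGraph V) (β : V → Fin k) (C : Finset V) (w : Var V k) :
    val G β C w ≤ 1 := by
  cases w <;> simp only [val] <;> split_ifs <;> norm_num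

/-- every axiom follows from at most one of the constraints -/
theorem axiom_holds {M : Set (V × V)} (hM : ∀ G ∈ 𝓖, ∀ e ∈ M, G.Adj e.1 e.2)
    {e : Ineq V k} (he : Axiom M t k e) :
    ∃ E : Finset (V × V), E.card ≤ 1 ∧
      ∀ (s : Partitioned 𝓖 k) (C : Finset V), C.card ≤ t → Covers s.1.1 C E →
        (lineOf 𝓖 e).Holds s C := by
  cases he with
  | nonneg w =>
    refine ⟨∅, by simp, fun s C _ _ => ?_⟩
    rw [holds_lineOf, lin_var]
    exact val_nonneg _ _ _ w
  | le_one w =>
    refine ⟨∅, by simp, fun s C _ _ => ?_⟩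
    rw [holds_lineOf, lin_neg, lin_var]
    have := val_le_one s.1.1 s.1.2 C w
    simp only
    linarith
  | size =>
    refine ⟨∅, by simp, fun s C hC _ => ?_⟩
    rw [holds_lineOf]
    unfold lin linC linG
    simp [sizeForm]
    exact hC
  | cover u v =>
    refine ⟨{(u, v)}, by simp, fun s C _ h' => ?_⟩
    have h : s.1.1.Adj u v → u ∈ C ∨ v ∈ C := h' (u, v) (mem_singleton_self _)
    rw [holds_lineOf, lin_sub, lin_add, lin_var, lin_var, lin_var]
    simp only [val]
    by_cases hadj : s.1.1.Adj u v
    · rcases h hadj with h' | h'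
      · simp only [h', hadj, if_true]
        split_ifs <;> norm_num
      · simp only [h', hadj, if_true]
        split_ifs <;> norm_num
    · simp only [hadj, if_false]
      split_ifs <;> norm_num
  | symm u v =>
    refine ⟨∅, by simp, fun s C _ _ => ?_⟩
    rw [holds_lineOf, lin_sub, lin_var, lin_var]
    simp only [val]
    rw [SimpleGraph.adj_comm]
    simp
  | known u v h =>
    refine ⟨∅, by simp, fun s C _ _ => ?_⟩
    rw [holds_lineOf, lin_var]
    have := hM s.1.1 s.2.1 _ h
    simp only [val]
    simp only at this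
    rw [if_pos this]
  | some_clique v =>
    refine ⟨∅, by simp, fun s C _ _ => ?_⟩
    rw [holds_lineOf]
    unfold lin linC linG
    simp [cliqueForm]
  | one_clique v i j hij =>
    refine ⟨∅, by simp, fun s C _ _ => ?_⟩
    rw [holds_lineOf, lin_sub, lin_neg, lin_var, lin_var]
    simp only [val]
    by_cases h1 : s.1.2 v = i
    · have h2 : s.1.2 v ≠ j := fun h => hij (h1.symm.trans h)
      rw [if_pos h1, if_neg h2]
      norm_num
    · rw [if_neg h1]
      split_ifs <;> norm_num
  | clique u v j huv =>
    refine ⟨∅, by simp, fun s C _ _ => ?_⟩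
    rw [holds_lineOf, lin_sub, lin_sub, lin_var, lin_var, lin_var]
    simp only [val]
    by_cases h1 : s.1.2 u = j
    · by_cases h2 : s.1.2 v = j
      · rw [if_pos (s.2.2 u v huv (h1.trans h2.symm)), if_pos h1, if_pos h2]
        norm_num
      · rw [if_neg h2]
        split_ifs <;> norm_num
    · rw [if_neg h1]
      split_ifs <;> norm_num

/-- cutting planes derivations are arguments -/
theorem argument_of_cuttingPlanes {M : Set (V × V)}
    (hM : ∀ G ∈ 𝓖, ∀ e ∈ M, G.Adj e.1 e.2) {l : List (Ineq V k)} (h : CuttingPlanes M t k l) :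
    Argument (fun p : Partitioned 𝓖 k => p.1.1) {C | C.card ≤ t} 2 1
      (l.map fun e => {lineOf 𝓖 e}) := by
  induction h with
  | nil => exact Argument.nil
  | @ax l e _ he ih =>
    obtain ⟨E, hE, hE'⟩ := axiom_holds hM he
    refine Argument.step _ E ∅ ih (by simp) (by simp; omega) (by simp) ?_
    intro s C hC h _ c hc
    rw [mem_singleton] at hc
    subst hc
    exact hE' s C hC h
  | @comb l e f p q _ he hf ih =>
    refine Argument.step _ ∅ {{lineOf 𝓖 e}, {lineOf 𝓖 f}} ih (by simp) ?_ ?_ ?_
    · rw [card_empty, zero_add]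
      exact card_le_two
    · intro b hb
      rw [mem_insert, mem_singleton] at hb
      rcases hb with rfl | rfl
      · exact List.mem_map.2 ⟨e, he, rfl⟩
      · exact List.mem_map.2 ⟨f, hf, rfl⟩
    · intro s C _ _ h c hc
      rw [mem_singleton] at hc
      subst hc
      have h1 := h _ (mem_insert_self _ _) _ (mem_singleton_self _)
      have h2 := h _ (mem_insert_of_mem (mem_singleton_self _)) _ (mem_singleton_self _)
      rw [holds_lineOf] at h1 h2 ⊢
      simp only
      rw [lin_comb]
      have hp : (0 : ℤ) ≤ p := by positivity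
      have hq : (0 : ℤ) ≤ q := by positivity
      exact add_le_add (mul_le_mul_of_nonneg_left h1 hp) (mul_le_mul_of_nonneg_left h2 hq)
  | @div l e d a _ he hd hda ih =>
    refine Argument.step _ ∅ {{lineOf 𝓖 e}} ih (by simp) (by simp) ?_ ?_
    · intro b hb
      rw [mem_singleton] at hb
      subst hb
      exact List.mem_map.2 ⟨e, he, rfl⟩
    · intro s C _ _ h c hc
      rw [mem_singleton] at hc
      subst hc
      have h1 := h _ (mem_singleton_self _) _ (mem_singleton_self _)
      rw [holds_lineOf] at h1 ⊢
      simp only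
      have h2 : e.a = (d : ℤ) • a + (0 : ℤ) • a := by
        funext w
        rw [hda w]
        simp
      rw [h2, lin_comb, zero_mul, add_zero] at h1
      have hd' : (0 : ℚ) < d := by exact_mod_cast hd
      apply Int.ceil_le.2
      rw [div_le_iff₀ hd']
      have h3 : ((e.b : ℤ) : ℚ) ≤ (((d : ℤ) * lin a s C : ℤ) : ℚ) := by exact_mod_cast h1
      push_cast at h3
      linarith

/-- cutting planes refutations are refutations with `w = 2` and `D = 1` -/
theorem refutes_of_cuttingPlanes {M : Set (V × V)}
    (hM : ∀ G ∈ 𝓖, ∀ e ∈ M, G.Adj e.1 e.2) {l : List (Ineq V k)} (h : CPRefutes M t k l) :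
    ∃ l', Refutes 𝓖 t k 2 1 l' ∧ l'.length = l.length := by
  obtain ⟨h, e, he, he1, he2⟩ := h
  refine ⟨l.map fun e => {lineOf 𝓖 e}, ⟨argument_of_cuttingPlanes hM h, {lineOf 𝓖 e},
    List.mem_map.2 ⟨e, he, rfl⟩, fun s C _ => ⟨_, mem_singleton_self _, ?_⟩⟩, by simp⟩
  rw [holds_lineOf, he1, lin_zero]
  omega

end H50CP
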