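import Pool.Agent.H50.CP.Interp

/-! # Short refutations -/

open scoped Classical
open Finset H630VC

namespace H50CP

/-! ## From circuits to arguments -/

/-- the comparison of a gate -/
noncomputable def gateLine {X V : Type*} (Γ : X → SimpleGraph V) (f : SimpleGraph V → ℝ) :
    Comparison X V where
  g := fun x => f (Γ x)
  F := fun C => f (touchGraph C)

theorem argument_of_prog {X V : Type*} (Γ : X → SimpleGraph V) (𝓒 : Set (Finset V))
    {l : List (SimpleGraph V → ℝ)} (hp : Prog (graphInputs V) l) :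
    Argument Γ 𝓒 2 1 (l.map fun f => {gateLine Γ f}) := by
  induction hp with
  | nil => exact Argument.nil
  | @input l f _ hf ih =>
    rcases hf with ⟨u, v, rfl⟩ | ⟨c, rfl⟩
    · refine Argument.step _ {(u, v)} ∅ ih (by simp) (by simp) (by simp) fun x C _ h' _ c hc => ?_
      rw [mem_singleton] at hc
      subst hc
      have hs : (Γ x).Adj u v → u ∈ C ∨ v ∈ C := h' (u, v) (mem_singleton_self _)
      show edgeBit u v (Γ x) ≤ edgeBit u v (touchGraph C)
      unfold edgeBit
      by_cases h : (Γ x).Adj u v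
      · have h' : (touchGraph C).Adj u v := ⟨h.ne, hs h⟩
        rw [if_pos h, if_pos h']
      · rw [if_neg h]
        split_ifs <;> norm_num
    · refine Argument.step _ ∅ ∅ ih (by simp) (by simp) (by simp) fun x C _ _ _ c hc => ?_
      rw [mem_singleton] at hc
      subst hc
      exact le_rfl
  | @gate l φ f g _ hφ hf hg ih =>
    refine Argument.step _ ∅ {{gateLine Γ f}, {gateLine Γ g}} ih (by simp) ?_ ?_ ?_
    · rw [card_empty, zero_add]
      exact card_le_two
    · intro b hb
      rw [mem_insert, mem_singleton] at hb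
      rcases hb with rfl | rfl
      · exact List.mem_map.2 ⟨f, hf, rfl⟩
      · exact List.mem_map.2 ⟨g, hg, rfl⟩
    · intro x C _ _ h c hc
      rw [mem_singleton] at hc
      subst hc
      exact hφ _ _ _ _ (h _ (mem_insert_self _ _) _ (mem_singleton_self _))
        (h _ (mem_insert_of_mem (mem_singleton_self _)) _ (mem_singleton_self _))

/-! ## Random partitions -/

/-- the functions `p` such that `β` is injective on the preimage of `c`, with values not in `A` -/
noncomputable def Z {r k : ℕ} (c : Fin r) (n : ℕ) (β : Fin n → Fin k) (A : Finset (Fin k)) :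
    Finset (Fin n → Fin r) :=
  univ.filter fun p => (∀ u v, u ≠ v → p u = c → p v = c → β u ≠ β v) ∧ ∀ u, p u = c → β u ∉ A

theorem Z_step {r k : ℕ} (c : Fin r) (n : ℕ) (β : Fin (n + 1) → Fin k) (A : Finset (Fin k)) :
    (Z c (n + 1) β A).card ≤ (r - 1) * (Z c n (Fin.tail β) A).card +
      if β 0 ∈ A then 0 else (Z c n (Fin.tail β) (insert (β 0) A)).card := by
  have hsub : Z c (n + 1) β A ⊆
      ((((univ : Finset (Fin r)).erase c) ×ˢ Z c n (Fin.tail β) A).image
        fun q : Fin r × (Fin n → Fin r) => (Fin.cons q.1 q.2 : Fin (n + 1) → Fin r)) ∪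
      (if β 0 ∈ A then ∅ else (Z c n (Fin.tail β) (insert (β 0) A)).image
        fun q => (Fin.cons c q : Fin (n + 1) → Fin r)) := by
    intro p hp
    simp only [Z, mem_filter, mem_univ, true_and] at hp
    obtain ⟨h1, h2⟩ := hp
    rw [mem_union]
    have htail1 : ∀ u v : Fin n, u ≠ v → Fin.tail p u = c → Fin.tail p v = c →
        Fin.tail β u ≠ Fin.tail β v := fun u v huv hu hv =>
      h1 u.succ v.succ (fun h => huv (Fin.succ_injective _ h)) hu hv
    have htail2 : ∀ u : Fin n, Fin.tail p u = c → Fin.tail β u ∉ A := fun u hu =>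
      h2 u.succ hu
    by_cases h0 : p 0 = c
    · right
      have hA : β 0 ∉ A := h2 0 h0
      rw [if_neg hA, mem_image]
      refine ⟨Fin.tail p, ?_, ?_⟩
      · simp only [Z, mem_filter, mem_univ, true_and]
        refine ⟨htail1, fun u hu => ?_⟩
        rw [mem_insert, not_or]
        refine ⟨?_, htail2 u hu⟩
        exact h1 u.succ 0 (Fin.succ_ne_zero u) hu h0
      · rw [← h0]
        exact Fin.cons_self_tail p
    · left
      rw [mem_image]
      refine ⟨(p 0, Fin.tail p), ?_, Fin.cons_self_tail p⟩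
      rw [mem_product, mem_erase]
      refine ⟨⟨h0, mem_univ _⟩, ?_⟩
      simp only [Z, mem_filter, mem_univ, true_and]
      exact ⟨htail1, htail2⟩
  refine (card_le_card hsub).trans ((card_union_le _ _).trans (Nat.add_le_add ?_ ?_))
  · refine card_image_le.trans ?_
    rw [card_product, card_erase_of_mem (mem_univ _), card_univ, Fintype.card_fin]
  · split_ifs
    · simp
    · exact card_image_le

/-- the product formula -/
theorem Z_card {r k : ℕ} (hr : 2 ≤ r) (c : Fin r) (n : ℕ) :
    ∀ (β : Fin n → Fin k) (A : Finset (Fin k)), ((Z c n β A).card : ℝ) ≤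
      ((r : ℝ) - 1) ^ n * ∏ j ∈ Aᶜ, (1 + ((univ.filter fun u => β u = j).card : ℝ) /
        ((r : ℝ) - 1)) := by
  have hr' : (2 : ℝ) ≤ r := by exact_mod_cast hr
  have hr1 : (0 : ℝ) < (r : ℝ) - 1 := by linarith
  induction n with
  | zero =>
    intro β A
    have h1 : (Z c 0 β A).card ≤ 1 := by
      refine (card_le_univ _).trans ?_
      simp
    have h2 : ∏ j ∈ Aᶜ, (1 + ((univ.filter fun u : Fin 0 => β u = j).card : ℝ) /
        ((r : ℝ) - 1)) = 1 := by
      apply prod_eq_one
      intro j _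
      simp
    rw [h2, pow_zero, mul_one]
    exact_mod_cast h1
  | succ n ih =>
    intro β A
    have hs : ∀ j, ((univ.filter fun u : Fin (n + 1) => β u = j).card : ℝ)
        = (if β 0 = j then 1 else 0) + ((univ.filter fun u : Fin n => Fin.tail β u = j).card : ℝ) := by
      intro j
      have h1 : ((univ.filter fun u : Fin (n + 1) => β u = j).card : ℝ)
          = ∑ u : Fin (n + 1), if β u = j then (1 : ℝ) else 0 := by
        rw [Finset.sum_boole]
      have h2 : ((univ.filter fun u : Fin n => Fin.tail β u = j).card : ℝ)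
          = ∑ u : Fin n, if Fin.tail β u = j then (1 : ℝ) else 0 := by
        rw [Finset.sum_boole]
      rw [h1, h2, Fin.sum_univ_succ]
      rfl
    have hstep : ((Z c (n + 1) β A).card : ℝ) ≤
        ((r : ℝ) - 1) * ((Z c n (Fin.tail β) A).card : ℝ) +
        if β 0 ∈ A then 0 else ((Z c n (Fin.tail β) (insert (β 0) A)).card : ℝ) := by
      have h1 := Z_step c n β A
      have h2 : ((r - 1 : ℕ) : ℝ) = (r : ℝ) - 1 := by
        rw [Nat.cast_sub (by omega)]; simp
      rw [← h2]
      exact_mod_cast h1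
    set W : Finset (Fin k) → ℝ := fun A => ∏ j ∈ Aᶜ,
      (1 + ((univ.filter fun u : Fin n => Fin.tail β u = j).card : ℝ) / ((r : ℝ) - 1)) with hW
    refine hstep.trans ?_
    by_cases hA : β 0 ∈ A
    · rw [if_pos hA, add_zero]
      have h1 : ∏ j ∈ Aᶜ, (1 + ((univ.filter fun u : Fin (n + 1) => β u = j).card : ℝ) /
          ((r : ℝ) - 1)) = W A := by
        apply prod_congr rfl
        intro j hj
        have : β 0 ≠ j := fun h => (mem_compl.1 hj) (h ▸ hA)
        rw [hs j, if_neg this, zero_add]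
      rw [h1, pow_succ]
      have := mul_le_mul_of_nonneg_left (ih (Fin.tail β) A) hr1.le
      calc ((r : ℝ) - 1) * ((Z c n (Fin.tail β) A).card : ℝ)
          ≤ ((r : ℝ) - 1) * (((r : ℝ) - 1) ^ n * W A) := this
        _ = _ := by ring
    · rw [if_neg hA]
      have hc1 : Aᶜ = insert (β 0) (insert (β 0) A)ᶜ := by
        ext j
        simp only [mem_compl, mem_insert]
        by_cases h : j = β 0
        · subst h; simp [hA]
        · simp [h]
      have hnot : β 0 ∉ (insert (β 0) A)ᶜ := by simp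
      have h1 : ∏ j ∈ Aᶜ, (1 + ((univ.filter fun u : Fin (n + 1) => β u = j).card : ℝ) /
          ((r : ℝ) - 1)) = (1 + (1 + ((univ.filter fun u : Fin n =>
            Fin.tail β u = β 0).card : ℝ)) / ((r : ℝ) - 1)) * W (insert (β 0) A) := by
        rw [hc1, prod_insert hnot, hs (β 0), if_pos rfl]
        congr 1
        apply prod_congr rfl
        intro j hj
        have : β 0 ≠ j := fun h => hnot (h ▸ hj)
        rw [hs j, if_neg this, zero_add]
      have h2 : W A = (1 + ((univ.filter fun u : Fin n =>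
            Fin.tail β u = β 0).card : ℝ) / ((r : ℝ) - 1)) * W (insert (β 0) A) := by
        rw [hW]
        simp only
        rw [hc1, prod_insert hnot]
      have g1 := mul_le_mul_of_nonneg_left (ih (Fin.tail β) A) hr1.le
      have g2 := ih (Fin.tail β) (insert (β 0) A)
      rw [h1]
      calc ((r : ℝ) - 1) * ((Z c n (Fin.tail β) A).card : ℝ) +
            ((Z c n (Fin.tail β) (insert (β 0) A)).card : ℝ)
          ≤ ((r : ℝ) - 1) * (((r : ℝ) - 1) ^ n * W A) +
            ((r : ℝ) - 1) ^ n * W (insert (β 0) A) := add_le_add g1 g2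
        _ = _ := by
            rw [h2, pow_succ]
            field_simp
            ring

/-- `log (1 + y) ≤ y - y² / (2 (1 + y))` -/
theorem log_bound {y : ℝ} (hy : 0 ≤ y) : 1 + y ≤ Real.exp (y - y ^ 2 / (2 * (1 + y))) := by
  have h1 : 0 < 1 + y := by linarith
  have h2 : 0 ≤ Real.log (1 + y) := Real.log_nonneg (by linarith)
  have h3 := Real.self_le_sinh_iff.2 h2
  rw [Real.sinh_log h1] at h3
  have h4 : ((1 + y) - (1 + y)⁻¹) / 2 = y - y ^ 2 / (2 * (1 + y)) := by
    field_simp
    ring
  rw [h4] at h3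
  calc 1 + y = Real.exp (Real.log (1 + y)) := (Real.exp_log h1).symm
    _ ≤ _ := Real.exp_le_exp.2 h3

/-- the arithmetic-geometric mean inequality -/
theorem prod_le {ι : Type*} (s : Finset ι) (f : ι → ℝ) (y : ℝ) (hy : 0 ≤ y) (hf : ∀ i ∈ s, 0 ≤ f i)
    (h : ∑ i ∈ s, f i = s.card * y) : ∏ i ∈ s, (1 + f i) ≤ (1 + y) ^ s.card := by
  have h1 : ∀ i ∈ s, 1 + f i ≤ (1 + y) * Real.exp ((f i - y) / (1 + y)) := by
    intro i _
    have h2 := Real.add_one_le_exp ((f i - y) / (1 + y))
    calc 1 + f i = (1 + y) * ((f i - y) / (1 + y) + 1) := by field_simp; ring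
      _ ≤ _ := mul_le_mul_of_nonneg_left h2 (by linarith)
  calc ∏ i ∈ s, (1 + f i) ≤ ∏ i ∈ s, ((1 + y) * Real.exp ((f i - y) / (1 + y))) :=
        prod_le_prod (fun i hi => by linarith [hf i hi]) h1
    _ = (1 + y) ^ s.card * Real.exp (∑ i ∈ s, (f i - y) / (1 + y)) := by
        rw [prod_mul_distrib, prod_const, Real.exp_sum]
    _ = (1 + y) ^ s.card := by
        rw [← sum_div, sum_sub_distrib, h]
        simp

theorem Z_small {n m k : ℕ} (hk : 1 ≤ k) (hm : 2 ≤ m) (h8 : 8 * k ≤ n)
    (h : 48 * (m : ℝ) * Real.sqrt k * Real.log n ≤ n) (c : Fin (m + 1)) (β : Fin n → Fin k) :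
    2 * ((m : ℝ) + 1) * ((Z c n β ∅).card : ℝ) ≤ ((m : ℝ) + 1) ^ n := by
  have hk' : (1 : ℝ) ≤ k := by exact_mod_cast hk
  have hm' : (2 : ℝ) ≤ m := by exact_mod_cast hm
  have h8' : 8 * (k : ℝ) ≤ n := by exact_mod_cast h8
  have hn8 : (8 : ℝ) ≤ n := by linarith
  have hlog2 : (2 : ℝ) ≤ Real.log n := by
    have h1 : Real.log 8 ≤ Real.log n := Real.log_le_log (by norm_num) hn8
    have h2 : Real.log 8 = 3 * Real.log 2 := by
      rw [show (8 : ℝ) = 2 ^ 3 by norm_num, Real.log_pow]
      norm_num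
    have := Real.log_two_gt_d9
    linarith
  set lg := Real.log n with hlg
  set y : ℝ := n / (k * m) with hy
  have hy0 : 0 < y := by positivity
  have hkmy : (k : ℝ) * m * y = n := by rw [hy]; field_simp
  have hmy : 8 ≤ (m : ℝ) * y := by
    have h1 : (m : ℝ) * y = n / k := by rw [hy]; field_simp
    rw [h1, le_div_iff₀ (by linarith)]
    exact h8'
  set z : ℝ := y ^ 2 / (2 * (1 + y)) with hz
  have hz0 : 0 < z := by positivity
  -- the count
  have hcount : ((Z c n β ∅).card : ℝ) ≤ (m : ℝ) ^ n * (1 + y) ^ k := by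
    have h1 := Z_card (by omega : 2 ≤ m + 1) c n β ∅
    have h2 : (((m + 1 : ℕ) : ℝ) - 1) = m := by push_cast; ring
    rw [h2, compl_empty] at h1
    refine h1.trans (mul_le_mul_of_nonneg_left ?_ (by positivity))
    have h3 := prod_le (univ : Finset (Fin k))
      (fun j => ((univ.filter fun u => β u = j).card : ℝ) / m) y hy0.le
      (fun j _ => by positivity) (by
        rw [← sum_div, card_univ, Fintype.card_fin]
        have h4 : ∑ j : Fin k, ((univ.filter fun u => β u = j).card : ℝ) = n := by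
          have h5 := card_eq_sum_card_fiberwise (s := (univ : Finset (Fin n)))
            (t := (univ : Finset (Fin k))) (f := β) (fun _ _ => mem_coe.2 (mem_univ _))
          rw [card_univ, Fintype.card_fin] at h5
          exact_mod_cast h5.symm
        rw [h4, hy]
        field_simp)
    simpa using h3
  -- the exponent
  have hexp : (m : ℝ) ^ n * (1 + y) ^ k ≤ ((m : ℝ) + 1) ^ n * Real.exp (-(k * z / 6)) := by
    have h1 : (m : ℝ) ≤ (m + 1) * Real.exp (-(1 / ((m : ℝ) + 1))) := by
      have h2 := Real.add_one_le_exp (-(1 / ((m : ℝ) + 1)))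
      calc (m : ℝ) = (m + 1) * (-(1 / ((m : ℝ) + 1)) + 1) := by field_simp; ring
        _ ≤ _ := mul_le_mul_of_nonneg_left h2 (by positivity)
    have h3 : (m : ℝ) ^ n ≤ (m + 1) ^ n * Real.exp (-(n / ((m : ℝ) + 1))) := by
      calc (m : ℝ) ^ n ≤ ((m + 1) * Real.exp (-(1 / ((m : ℝ) + 1)))) ^ n :=
            pow_le_pow_left₀ (by positivity) h1 n
        _ = (m + 1) ^ n * Real.exp (n * -(1 / ((m : ℝ) + 1))) := by
            rw [mul_pow, ← Real.exp_nat_mul]
        _ = _ := by
            congr 2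
            ring
    have h4 : (1 + y) ^ k ≤ Real.exp (k * (y - z)) := by
      rw [Real.exp_nat_mul]
      exact pow_le_pow_left₀ (by positivity) (log_bound hy0.le) k
    calc (m : ℝ) ^ n * (1 + y) ^ k
        ≤ ((m + 1) ^ n * Real.exp (-(n / ((m : ℝ) + 1)))) * Real.exp (k * (y - z)) :=
          mul_le_mul h3 h4 (by positivity) (by positivity)
      _ = ((m : ℝ) + 1) ^ n * Real.exp (-(n / ((m : ℝ) + 1)) + k * (y - z)) := by
          rw [Real.exp_add]; ring
      _ ≤ _ := by
          apply mul_le_mul_of_nonneg_left _ (by positivity)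
          apply Real.exp_le_exp.2
          have h5 : (n : ℝ) / (m + 1) = k * (y - y / (m + 1)) := by
            rw [← hkmy]; field_simp; ring
          have h6 : y / ((m : ℝ) + 1) ≤ 5 / 6 * z := by
            rw [hz, div_le_iff₀ (by positivity)]
            have h7 : 1 + y ≤ 5 / 12 * (m + 1) * y := by nlinarith
            have h8 : 5 / 6 * (y ^ 2 / (2 * (1 + y))) * ((m : ℝ) + 1)
                = y * (5 / 12 * (m + 1) * y) / (1 + y) := by field_simp; ring
            rw [h8, le_div_iff₀ (by positivity)]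
            exact mul_le_mul_of_nonneg_left h7 hy0.le
          have h9 : (k : ℝ) * (y / ((m : ℝ) + 1)) ≤ k * (5 / 6 * z) :=
            mul_le_mul_of_nonneg_left h6 (by linarith)
          rw [h5]
          nlinarith
  -- the size of the exponent
  have hsk : (1 : ℝ) ≤ Real.sqrt k := Real.one_le_sqrt.2 hk'
  have hsq : Real.sqrt k ^ 2 = k := Real.sq_sqrt (by linarith)
  have hbig : 2 * lg ≤ k * z / 6 := by
    rcases le_total y 1 with hy1 | hy1
    · have h1 : y ^ 2 / 4 ≤ z := by
        rw [hz]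
        apply div_le_div_of_nonneg_left (by positivity) (by positivity) (by linarith)
      -- k y² = n² / (k m²) ≥ (48 lg)²
      have h2 : (48 * lg) ^ 2 ≤ k * y ^ 2 := by
        have h3 : 48 * lg ≤ Real.sqrt k * y := by
          have h4 : Real.sqrt k * y = n / (m * Real.sqrt k) := by
            rw [eq_div_iff (by positivity)]
            calc Real.sqrt k * y * (m * Real.sqrt k) = Real.sqrt k ^ 2 * m * y := by ring
              _ = n := by rw [hsq, hkmy]
          rw [h4, le_div_iff₀ (by positivity)]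
          calc 48 * lg * (m * Real.sqrt k) = 48 * (m : ℝ) * Real.sqrt k * lg := by ring
            _ ≤ n := h
        calc (48 * lg) ^ 2 ≤ (Real.sqrt k * y) ^ 2 := pow_le_pow_left₀ (by positivity) h3 2
          _ = k * y ^ 2 := by rw [mul_pow, hsq]
      nlinarith
    · have h1 : y / 4 ≤ z := by
        rw [hz, le_div_iff₀ (by positivity)]
        nlinarith
      have h2 : 48 * lg ≤ k * y := by
        have h3 : (k : ℝ) * y = n / m := by rw [hy]; field_simp
        rw [h3, le_div_iff₀ (by positivity)]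
        calc 48 * lg * m ≤ 48 * lg * m * Real.sqrt k := by
              have : 0 ≤ 48 * lg * m := by positivity
              nlinarith
          _ = 48 * (m : ℝ) * Real.sqrt k * lg := by ring
          _ ≤ n := h
      nlinarith
  have hmn : 2 * ((m : ℝ) + 1) ≤ (n : ℝ) ^ 2 := by
    have h1 : (m : ℝ) * 96 ≤ n := by
      have h2 : (m : ℝ) * 96 ≤ 48 * (m : ℝ) * Real.sqrt k * lg := by
        calc (m : ℝ) * 96 = 48 * m * 1 * 2 := by ring
          _ ≤ 48 * (m : ℝ) * Real.sqrt k * lg := by gcongr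
      linarith
    nlinarith
  have hexp2 : Real.exp (-(k * z / 6)) ≤ ((n : ℝ) ^ 2)⁻¹ := by
    calc Real.exp (-(k * z / 6)) ≤ Real.exp (-(2 * lg)) := by
          apply Real.exp_le_exp.2
          linarith
      _ = ((n : ℝ) ^ 2)⁻¹ := by
          rw [Real.exp_neg, hlg, show (2 : ℝ) * Real.log n = ((2 : ℕ) : ℝ) * Real.log n by norm_num,
            Real.exp_nat_mul, Real.exp_log (by linarith)]
  calc 2 * ((m : ℝ) + 1) * ((Z c n β ∅).card : ℝ)
      ≤ 2 * ((m : ℝ) + 1) * (((m : ℝ) + 1) ^ n * ((n : ℝ) ^ 2)⁻¹) := by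
        apply mul_le_mul_of_nonneg_left _ (by positivity)
        exact hcount.trans (hexp.trans (mul_le_mul_of_nonneg_left hexp2 (by positivity)))
    _ = ((m : ℝ) + 1) ^ n * (2 * ((m : ℝ) + 1) / (n : ℝ) ^ 2) := by
        field_simp
    _ ≤ ((m : ℝ) + 1) ^ n * 1 := by
        apply mul_le_mul_of_nonneg_left _ (by positivity)
        rw [div_le_one (by positivity)]
        exact hmn
    _ = _ := mul_one _

/-- a few partitions such that every colouring with `k` colours has two vertices of the same colour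
in each part of one of them -/
theorem exists_family {n m k : ℕ} (hk : 1 ≤ k) (hm : 2 ≤ m) (h8 : 8 * k ≤ n)
    (h : 48 * (m : ℝ) * Real.sqrt k * Real.log n ≤ n) :
    ∃ P : Fin (n ^ 2) → Fin n → Fin (m + 1), ∀ β : Fin n → Fin k, ∃ j, ∀ c : Fin (m + 1),
      ∃ u v, u ≠ v ∧ P j u = c ∧ P j v = c ∧ β u = β v := by
  by_contra hcon
  push Not at hcon
  set J := n ^ 2 with hJ
  set B : (Fin n → Fin k) → Finset (Fin n → Fin (m + 1)) := fun β =>
    univ.filter fun p => ∃ c : Fin (m + 1), p ∈ Z c n β ∅ with hB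
  have hBcard : ∀ β, 2 * (B β).card ≤ (m + 1) ^ n := by
    intro β
    have hsub : B β ⊆ univ.biUnion fun c : Fin (m + 1) => Z c n β ∅ := by
      intro p hp
      rw [hB, mem_filter] at hp
      rw [mem_biUnion]
      obtain ⟨-, c, hc⟩ := hp
      exact ⟨c, mem_univ _, hc⟩
    have h1 : (2 * (B β).card : ℝ) ≤ ((m : ℝ) + 1) ^ n := by
      have h2 : ((B β).card : ℝ) ≤ ∑ c : Fin (m + 1), ((Z c n β ∅).card : ℝ) := by
        exact_mod_cast (card_le_card hsub).trans card_biUnion_le
      have h3 : ∀ c : Fin (m + 1), ((Z c n β ∅).card : ℝ) ≤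
          ((m : ℝ) + 1) ^ n / (2 * ((m : ℝ) + 1)) := by
        intro c
        rw [le_div_iff₀ (by positivity)]
        have := Z_small hk hm h8 h c β
        linarith
      have h4 : ∑ c : Fin (m + 1), ((Z c n β ∅).card : ℝ) ≤
          ∑ _c : Fin (m + 1), ((m : ℝ) + 1) ^ n / (2 * ((m : ℝ) + 1)) :=
        sum_le_sum fun c _ => h3 c
      rw [sum_const, card_univ, Fintype.card_fin, nsmul_eq_mul] at h4
      have h5 : ((m + 1 : ℕ) : ℝ) * (((m : ℝ) + 1) ^ n / (2 * ((m : ℝ) + 1)))
          = ((m : ℝ) + 1) ^ n / 2 := by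
        push_cast
        field_simp
      rw [h5] at h4
      linarith
    exact_mod_cast h1
  have hcov : (univ : Finset (Fin J → Fin n → Fin (m + 1))) ⊆
      (univ : Finset (Fin n → Fin k)).biUnion fun β => Fintype.piFinset fun _ => B β := by
    intro P _
    obtain ⟨β, hβ⟩ := hcon P
    rw [mem_biUnion]
    refine ⟨β, mem_univ _, ?_⟩
    rw [Fintype.mem_piFinset]
    intro j
    obtain ⟨c, hc⟩ := hβ j
    rw [hB, mem_filter]
    refine ⟨mem_univ _, c, ?_⟩
    simp only [Z, mem_filter, mem_univ, true_and, notMem_empty, not_false_eq_true, implies_true,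
      and_true]
    exact hc
  have h6 : ((m + 1) ^ n) ^ J ≤ ∑ β : Fin n → Fin k, (B β).card ^ J := by
    have := (card_le_card hcov).trans card_biUnion_le
    simpa [Fintype.card_piFinset] using this
  have h7 : ((m + 1) ^ n) ^ J * 2 ^ J ≤ k ^ n * ((m + 1) ^ n) ^ J := by
    calc ((m + 1) ^ n) ^ J * 2 ^ J ≤ (∑ β : Fin n → Fin k, (B β).card ^ J) * 2 ^ J :=
          Nat.mul_le_mul_right _ h6
      _ = ∑ β : Fin n → Fin k, (2 * (B β).card) ^ J := by
          rw [sum_mul]
          apply sum_congr rfl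
          intro M _
          rw [mul_pow, mul_comm]
      _ ≤ ∑ _β : Fin n → Fin k, ((m + 1) ^ n) ^ J :=
          sum_le_sum fun β _ => Nat.pow_le_pow_left (hBcard β) _
      _ = _ := by
          rw [sum_const, smul_eq_mul, card_univ]
          simp
  have h9 : 0 < ((m + 1) ^ n) ^ J := by positivity
  rw [mul_comm (k ^ n)] at h7
  have h10 := Nat.le_of_mul_le_mul_left h7 h9
  have h11 : k ^ n < 2 ^ J := by
    calc k ^ n ≤ n ^ n := Nat.pow_le_pow_left (by omega) n
      _ < (2 ^ n) ^ n := Nat.pow_lt_pow_left Nat.lt_two_pow_self (by omega)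
      _ = 2 ^ J := by rw [← pow_mul, hJ, sq]
  omega

/-- short refutations -/
theorem upper (n t k : ℕ) (hk : 1 ≤ k) (h8 : 8 * k ≤ n)
    (h : 96 * ((t : ℝ) + 1) * Real.sqrt k * Real.log n ≤ n) :
    ∃ l, Refutes (Set.univ : Set (SimpleGraph (Fin n))) t k 2 1 l ∧ l.length ≤ n ^ 6 := by
  have hn8 : 8 ≤ n := by omega
  have hlog : 0 ≤ Real.log n := Real.log_natCast_nonneg n
  have hcond : 48 * ((t + 2 : ℕ) : ℝ) * Real.sqrt k * Real.log n ≤ n := by
    refine le_trans ?_ h
    push_cast
    have h1 : (t : ℝ) + 2 ≤ 2 * ((t : ℝ) + 1) := by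
      have : (0 : ℝ) ≤ t := by positivity
      linarith
    calc 48 * ((t : ℝ) + 2) * Real.sqrt k * Real.log n
        ≤ 48 * (2 * ((t : ℝ) + 1)) * Real.sqrt k * Real.log n := by gcongr
      _ = _ := by ring
  obtain ⟨P, hP⟩ := exists_family hk (by omega : 2 ≤ t + 2) h8 hcond
  obtain ⟨l, f, h1, h2, h3, h4⟩ := exists_test n (t + 2 + 1) (n ^ 2) P
  have htn : t + 2 + 1 ≤ n := by
    have hk' : (1 : ℝ) ≤ k := by exact_mod_cast hk
    have hsk : (1 : ℝ) ≤ Real.sqrt k := Real.one_le_sqrt.2 hk'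
    have hlog1 : (1 : ℝ) ≤ Real.log n := by
      have h1 : Real.log 8 ≤ Real.log n :=
        Real.log_le_log (by norm_num) (by exact_mod_cast hn8)
      have h2 : Real.log 8 = 3 * Real.log 2 := by
        rw [show (8 : ℝ) = 2 ^ 3 by norm_num, Real.log_pow]
        norm_num
      have := Real.log_two_gt_d9
      linarith
    have h5 : 96 * ((t : ℝ) + 1) ≤ n := by
      calc 96 * ((t : ℝ) + 1) = 96 * ((t : ℝ) + 1) * 1 * 1 := by ring
        _ ≤ 96 * ((t : ℝ) + 1) * Real.sqrt k * Real.log n := by gcongr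
        _ ≤ n := h
    have h6 : ((t + 2 + 1 : ℕ) : ℝ) ≤ n := by
      push_cast
      have : (0 : ℝ) ≤ t := by positivity
      linarith
    exact_mod_cast h6
  refine ⟨_, ⟨argument_of_prog _ _ h1, {gateLine _ f}, List.mem_map.2 ⟨f, h2, rfl⟩,
    fun s C hC => ⟨_, mem_singleton_self _, fun hs => ?_⟩⟩, ?_⟩
  · have hs' : f s.1.1 ≤ f (touchGraph C) := hs
    have g1 : f s.1.1 = 1 := by
      rw [h4, if_pos]
      obtain ⟨j, hj⟩ := hP s.1.2
      refine ⟨j, fun c => ?_⟩
      obtain ⟨u, v, huv, hu, hv, hβ⟩ := hj c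
      exact ⟨u, v, hu, hv, s.2.2 u v huv hβ⟩
    have g2 : f (touchGraph C) = 0 := by
      rw [h4, if_neg]
      rintro ⟨j, hj⟩
      have h5 := cover_of_parts (touchGraph C) (t + 2 + 1) (P j) hj C
        (isCover_touchGraph C)
      omega
    rw [g1, g2] at hs'
    linarith
  · rw [List.length_map]
    refine h3.trans ?_
    calc n ^ 2 * ((t + 2 + 1) * (n * n * 2 + 2) + 2) + 1
        ≤ n ^ 2 * (n * (n * n * 2 + 2) + 2) + 1 := by gcongr
      _ = 2 * n ^ 5 + 2 * n ^ 3 + 2 * n ^ 2 + 1 := by ring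
      _ ≤ 2 * n ^ 5 + 2 * n ^ 5 + 2 * n ^ 5 + n ^ 5 := by
          have e1 : n ^ 3 ≤ n ^ 5 := Nat.pow_le_pow_right (by omega) (by omega)
          have e2 : n ^ 2 ≤ n ^ 5 := Nat.pow_le_pow_right (by omega) (by omega)
          have e3 : 1 ≤ n ^ 5 := Nat.one_le_pow _ _ (by omega)
          omega
      _ = 7 * n ^ 5 := by ring
      _ ≤ n * n ^ 5 := Nat.mul_le_mul_right _ (by omega)
      _ = n ^ 6 := by ring

end H50CP
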