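import Pool.Agent.H50.CP.Asymp
import Pool.Agent.H50.CP.Upper
import Pool.Agent.H50.CP.Easy

/-! # Completeness and the forms with approximation ratios -/

open scoped Classical
open Finset H630VC

namespace H50CP

/-- a set which misses at most one vertex of each clique is large -/
theorem card_cover_of_clique {V : Type*} [Fintype V] {k : ℕ} (G : SimpleGraph V) (β : V → Fin k)
    (hβ : ∀ u v, u ≠ v → β u = β v → G.Adj u v) (C : Finset V)
    (hC : ∀ u v, G.Adj u v → u ∈ C ∨ v ∈ C) : Fintype.card V ≤ C.card + k :=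
  card_cover_classGraph β C fun u v h => hC u v (hβ u v h.1 h.2)

/-- there are refutations of all true statements of this form -/
theorem complete {V : Type*} [Fintype V] (𝓖 : Set (SimpleGraph V)) (t k : ℕ)
    (h : t + k < Fintype.card V) : ∃ l, Refutes 𝓖 t k 2 1 l := by
  have hc : ∀ c : ℝ, (fun _ => c) ∈ graphInputs V := fun c => Or.inr ⟨c, rfl⟩
  have hedge : ∀ u v : V, Comp905 (graphInputs V) 1 (fun G => G.Adj u v) := by
    intro u v
    refine ⟨[edgeBit u v], Prog.input Prog.nil (Or.inl ⟨u, v, rfl⟩), ?_, by simp⟩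
    rw [List.mem_singleton]
    rfl
  have hfin : Finite (SimpleGraph V) :=
    Finite.of_injective (fun G : SimpleGraph V => G.Adj) fun G H h => SimpleGraph.ext h
  have : Fintype (SimpleGraph V) := Fintype.ofFinite _
  have h1 : ∀ H : SimpleGraph V, ∃ a, Comp905 (graphInputs V) a (fun G => ∀ e ∈
      (univ : Finset (V × V)).filter (fun e => H.Adj e.1 e.2), G.Adj e.1 e.2) := fun H =>
    ⟨_, comp_and905 (hc 1) _ (fun (e : V × V) G => G.Adj e.1 e.2) fun e _ => hedge e.1 e.2⟩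
  choose a ha using h1
  obtain ⟨l, hl, hf, -⟩ := comp_or905 (a := ∑ H, a H) (hc 0)
    ((univ : Finset (SimpleGraph V)).filter fun H => ∀ C : Finset V, IsCover H C → t < C.card)
    (fun H G => ∀ e ∈ (univ : Finset (V × V)).filter (fun e => H.Adj e.1 e.2), G.Adj e.1 e.2)
    (by
      intro H _
      obtain ⟨l, g1, g2, g3⟩ := ha H
      exact ⟨l, g1, g2, g3.trans (single_le_sum (f := a) (fun _ _ => Nat.zero_le _)
        (mem_univ H))⟩)
  refine ⟨_, argument_of_prog _ _ hl, {gateLine _ _},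
    List.mem_map.2 ⟨_, hf, rfl⟩, fun s C hC => ⟨_, mem_singleton_self _, fun hs => ?_⟩⟩
  have hs' := hs
  simp only [Comparison.Holds, gateLine] at hs'
  rw [if_pos, if_neg] at hs'
  · linarith
  · rintro ⟨H, hH, hH'⟩
    rw [mem_filter] at hH
    have h2 : IsCover H C := by
      intro u v huv
      exact (hH' (u, v) (mem_filter.2 ⟨mem_univ _, huv⟩)).2
    have := hH.2 C h2
    omega
  · refine ⟨s.1.1, mem_filter.2 ⟨mem_univ _, fun C hC => ?_⟩, fun e he => (mem_filter.1 he).2⟩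
    have := card_cover_of_clique s.1.1 s.1.2 s.2.2 C hC
    omega

/-- arguments are sound -/
theorem sound {X V : Type*} {Γ : X → SimpleGraph V} {𝓒 : Set (Finset V)} {w D : ℕ}
    {l : List (Finset (Comparison X V))} (h : Argument Γ 𝓒 w D l) {x : X} {C : Finset V}
    (hC𝓒 : C ∈ 𝓒) (hC : IsCover (Γ x) C) : ∀ a ∈ l, ∀ c ∈ a, c.Holds x C := by
  induction h with
  | nil => simp
  | @step l a E B _ _ _ hB h ih =>
    intro d hd
    rcases List.mem_cons.1 hd with rfl | hd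
    · exact h x C hC𝓒 (fun e _ => hC e.1 e.2) fun b hb => ih b (hB b hb)
    · exact ih d hd

/-- refutations are sound -/
theorem refutes_sound {V : Type*} (𝓖 : Set (SimpleGraph V)) (t k w D : ℕ)
    (l : List (Finset (Comparison (Partitioned 𝓖 k) V)))
    (h : Refutes 𝓖 t k w D l) (G : SimpleGraph V) (hG : G ∈ 𝓖) (β : V → Fin k)
    (hβ : ∀ u v, u ≠ v → β u = β v → G.Adj u v) (C : Finset V) (hC : IsCover G C) :
    t < C.card := by
  by_contra hcon
  rw [not_lt] at hcon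
  obtain ⟨hd, a, ha, hno⟩ := h
  obtain ⟨c, hc, hc'⟩ := hno ⟨(G, β), hG, hβ⟩ C hcon
  exact hc' (sound hd hcon hC a ha c hc)

/-! ## Ratios -/

theorem eventually_rpow (K δ : ℝ) (hδ : 0 < δ) : ∃ N : ℕ, ∀ n : ℕ, N ≤ n → K ≤ (n : ℝ) ^ δ := by
  have h := (tendsto_rpow_atTop hδ).comp (tendsto_natCast_atTop_atTop (R := ℝ))
  obtain ⟨N, hN⟩ := Filter.eventually_atTop.1 (h.eventually (Filter.eventually_ge_atTop K))
  exact ⟨N, hN⟩

/-- the parameters for the ratio `n ^ (1/2 - η)` -/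
theorem ratio_params_all (η : ℝ) (hη : 0 < η) (hη2 : η ≤ 1 / 2) :
    ∃ N : ℕ, ∀ n : ℕ, N ≤ n → ∃ t k : ℕ, t ≤ n ∧ k ≤ n ∧ 1 ≤ t ∧
      (n : ℝ) ^ (1 / 2 - η) * t < n - k ∧ (n : ℝ) ^ (1 + η / 2) ≤ t * Real.sqrt k := by
  obtain ⟨N, hN⟩ := eventually_rpow 12 (η / 2) (by positivity)
  refine ⟨max N 9, fun n hn => ?_⟩
  have hn4 : 9 ≤ n := (le_max_right _ _).trans hn
  have hn0 : (9 : ℝ) ≤ n := by exact_mod_cast hn4
  have hn1 : (1 : ℝ) ≤ n := by linarith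
  have hnpos : (0 : ℝ) < n := by linarith
  have g := hN n ((le_max_left _ _).trans hn)
  set X : ℝ := (n : ℝ) ^ (1 / 2 + η) with hX
  have hXn : X ≤ n := by
    calc X ≤ (n : ℝ) ^ (1 : ℝ) := Real.rpow_le_rpow_of_exponent_le hn1 (by linarith)
      _ = n := Real.rpow_one _
  have hX2 : 3 ≤ X := by
    calc (3 : ℝ) = (9 : ℝ) ^ (1 / 2 : ℝ) := by
          rw [show (9 : ℝ) = 3 ^ (2 : ℝ) by norm_num, ← Real.rpow_mul (by norm_num)]
          norm_num
      _ ≤ (n : ℝ) ^ (1 / 2 : ℝ) := Real.rpow_le_rpow (by norm_num) hn0 (by norm_num)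
      _ ≤ X := Real.rpow_le_rpow_of_exponent_le hn1 (by linarith)
  set t : ℕ := ⌊X / 3⌋₊ with ht
  have ht1 : 1 ≤ t := Nat.le_floor (by push_cast; linarith)
  have ht_le : (t : ℝ) ≤ X / 3 := Nat.floor_le (by linarith)
  have ht_ge : X / 6 ≤ t := by
    have h1 := Nat.lt_floor_add_one (X / 3)
    have h2 : (1 : ℝ) ≤ t := by exact_mod_cast ht1
    rw [← ht] at h1
    linarith
  have hk_le : ((n / 2 : ℕ) : ℝ) ≤ n / 2 := Nat.cast_div_le
  have hk_ge : (n : ℝ) / 4 ≤ ((n / 2 : ℕ) : ℝ) := by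
    have h1 : n ≤ 4 * (n / 2) := by omega
    have h2 : (n : ℝ) ≤ 4 * ((n / 2 : ℕ) : ℝ) := by exact_mod_cast h1
    linarith
  refine ⟨t, n / 2, ?_, Nat.div_le_self _ _, ht1, ?_, ?_⟩
  · have : (t : ℝ) ≤ n := by linarith
    exact_mod_cast this
  · have h1 : (n : ℝ) ^ (1 / 2 - η) * X = n := by
      rw [hX, ← Real.rpow_add hnpos]
      have : 1 / 2 - η + (1 / 2 + η) = 1 := by ring
      rw [this, Real.rpow_one]
    have h2 : (n : ℝ) ^ (1 / 2 - η) * t ≤ (n : ℝ) ^ (1 / 2 - η) * (X / 3) := by gcongr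
    have h3 : (n : ℝ) ^ (1 / 2 - η) * (X / 3) = n / 3 := by
      calc _ = (n : ℝ) ^ (1 / 2 - η) * X / 3 := by ring
        _ = n / 3 := by rw [h1]
    linarith
  · have h1 : Real.sqrt n / 2 ≤ Real.sqrt ((n / 2 : ℕ) : ℝ) := by
      apply Real.le_sqrt_of_sq_le
      rw [div_pow, Real.sq_sqrt hnpos.le]
      linarith
    have h2 : X * Real.sqrt n = (n : ℝ) ^ (1 + η / 2) * (n : ℝ) ^ (η / 2) := by
      rw [hX, Real.sqrt_eq_rpow, ← Real.rpow_add hnpos, ← Real.rpow_add hnpos]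
      congr 1
      ring
    calc (n : ℝ) ^ (1 + η / 2) = (n : ℝ) ^ (1 + η / 2) * 12 / 12 := by ring
      _ ≤ (n : ℝ) ^ (1 + η / 2) * (n : ℝ) ^ (η / 2) / 12 := by gcongr
      _ = (X / 6) * (Real.sqrt n / 2) := by rw [← h2]; ring
      _ ≤ t * Real.sqrt ((n / 2 : ℕ) : ℝ) := by gcongr

/-- the parameters for ratios below `2` -/
theorem ratio_params_pm (c : ℝ) (hc : c < 2) :
    ∃ N : ℕ, ∀ n : ℕ, N ≤ n → ∃ t k : ℕ, t ≤ n ∧ k ≤ n ∧
      c * ((n + t : ℕ) : ℝ) < 2 * n - k ∧ (n : ℝ) ^ (1 + 4 / 9 : ℝ) ≤ t * Real.sqrt k := by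
  set δ : ℝ := min ((2 - c) / 4) (1 / 2) with hδdef
  have hδ : 0 < δ := lt_min (by linarith) (by norm_num)
  have hδ1 : δ ≤ 1 / 2 := min_le_right _ _
  have hδc : c ≤ 2 - 4 * δ := by
    have := min_le_left ((2 - c) / 4) (1 / 2 : ℝ)
    linarith
  obtain ⟨N, hN⟩ := eventually_rpow (2 / δ * Real.sqrt (2 / δ)) (1 / 18) (by norm_num)
  refine ⟨max N ⌈2 / δ⌉₊, fun n hn => ?_⟩
  have g := hN n ((le_max_left _ _).trans hn)
  have hnδ : 2 / δ ≤ n := by
    have h1 : (⌈2 / δ⌉₊ : ℝ) ≤ n := by exact_mod_cast (le_max_right _ _).trans hn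
    exact (Nat.le_ceil _).trans h1
  have hδn : 2 ≤ δ * n := by
    rw [div_le_iff₀ hδ] at hnδ
    linarith
  have hnpos : (0 : ℝ) < n := by
    have : 0 < 2 / δ := by positivity
    linarith
  set t : ℕ := ⌊δ * n⌋₊ with ht
  have ht_le : (t : ℝ) ≤ δ * n := Nat.floor_le (by positivity)
  have ht_ge : δ / 2 * n ≤ t := by
    have h1 := Nat.lt_floor_add_one (δ * n)
    rw [← ht] at h1
    linarith
  have htn : t ≤ n := by
    have : (t : ℝ) ≤ n := by nlinarith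
    exact_mod_cast this
  refine ⟨t, t, htn, htn, ?_, ?_⟩
  · push_cast
    have h1 : c * ((n : ℝ) + t) ≤ (2 - 4 * δ) * (n + t) := by
      apply mul_le_mul_of_nonneg_right hδc
      positivity
    have h2 : (2 - 4 * δ) * ((n : ℝ) + t) ≤ (2 - 4 * δ) * (n + δ * n) := by
      apply mul_le_mul_of_nonneg_left (by linarith) (by linarith)
    have h3 : (2 - 4 * δ) * ((n : ℝ) + δ * n) < 2 * n - δ * n := by
      have : (0 : ℝ) < δ * n := by positivity
      nlinarith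
    linarith
  · have h1 : Real.sqrt (δ / 2) * Real.sqrt n ≤ Real.sqrt t := by
      rw [← Real.sqrt_mul (by positivity)]
      exact Real.sqrt_le_sqrt ht_ge
    have h2 : (n : ℝ) ^ (1 + 4 / 9 : ℝ) * (n : ℝ) ^ (1 / 18 : ℝ) = n * Real.sqrt n := by
      rw [Real.sqrt_eq_rpow, ← Real.rpow_add hnpos]
      have : (n : ℝ) * (n : ℝ) ^ (1 / 2 : ℝ) = (n : ℝ) ^ (1 + 1 / 2 : ℝ) := by
        rw [Real.rpow_add hnpos, Real.rpow_one]
      rw [this]
      norm_num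
    have h3 : δ / 2 * Real.sqrt (δ / 2) * (2 / δ * Real.sqrt (2 / δ)) = 1 := by
      have h4 : Real.sqrt (δ / 2) * Real.sqrt (2 / δ) = 1 := by
        rw [← Real.sqrt_mul (by positivity)]
        have : δ / 2 * (2 / δ) = 1 := by field_simp
        rw [this, Real.sqrt_one]
      calc _ = (δ / 2 * (2 / δ)) * (Real.sqrt (δ / 2) * Real.sqrt (2 / δ)) := by ring
        _ = 1 := by rw [h4]; field_simp
    calc (n : ℝ) ^ (1 + 4 / 9 : ℝ)
        = (n : ℝ) ^ (1 + 4 / 9 : ℝ) *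
          (δ / 2 * Real.sqrt (δ / 2) * (2 / δ * Real.sqrt (2 / δ))) := by rw [h3, mul_one]
      _ ≤ (n : ℝ) ^ (1 + 4 / 9 : ℝ) *
          (δ / 2 * Real.sqrt (δ / 2) * (n : ℝ) ^ (1 / 18 : ℝ)) := by gcongr
      _ = (δ / 2 * Real.sqrt (δ / 2)) *
          ((n : ℝ) ^ (1 + 4 / 9 : ℝ) * (n : ℝ) ^ (1 / 18 : ℝ)) := by ring
      _ = (δ / 2 * n) * (Real.sqrt (δ / 2) * Real.sqrt n) := by rw [h2]; ring
      _ ≤ t * Real.sqrt t := by gcongr

theorem rpow_cube {n w : ℕ} (hn : 1 ≤ n) {a b : ℝ} (h : (w : ℝ) ≤ (n : ℝ) ^ b) :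
    (n : ℝ) ^ a * (w : ℝ) ^ 3 ≤ (n : ℝ) ^ (a + 3 * b) := by
  have hn0 : (0 : ℝ) < n := by exact_mod_cast hn
  rw [Real.rpow_add hn0]
  apply mul_le_mul_of_nonneg_left _ (by positivity)
  calc (w : ℝ) ^ 3 ≤ ((n : ℝ) ^ b) ^ 3 := pow_le_pow_left₀ (by positivity) h 3
    _ = (n : ℝ) ^ (3 * b) := by
        rw [← Real.rpow_natCast, ← Real.rpow_mul hn0.le]
        congr 1
        push_cast
        ring

end H50CP
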