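import Pool.Graph.R_seed8.H630VC.Final3

/-!
# Circuits of monotone real gates of fan-in `w`

The lower bound of `H630VC/Core.lean` for gates of arbitrary fan-in.
-/

open scoped Classical
open Finset H630VC

namespace H50CP

/-- `WProg w inp l`: `l` is the list of the functions computed at the gates of a circuit (last gate
first); each gate applies a nondecreasing real function to the values of at most `w` inputs or
earlier gates -/
inductive WProg {I : Type*} (w : ℕ) (inp : Set (I → ℝ)) : List (I → ℝ) → Prop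
  | nil : WProg w inp []
  | gate {l : List (I → ℝ)} (S : Finset (I → ℝ)) (φ : ((I → ℝ) → ℝ) → ℝ) (f : I → ℝ) :
      WProg w inp l → S.card ≤ w → (∀ g ∈ S, g ∈ inp ∨ g ∈ l) →
      (∀ a b : (I → ℝ) → ℝ, (∀ g ∈ S, a g ≤ b g) → φ a ≤ φ b) →
      (f = fun x => φ fun g => g x) → WProg w inp (f :: l)

variable {V : Type*} [Fintype V]

/-- the number of colours -/
abbrev wcols (w L Q : ℕ) : ℕ := (4 * (4 * (w * L) * (w * L + 1) * Q)) ^ 2

theorem geom_aux (A : ℕ → ℝ) (M : ℝ) (L N : ℕ) (hLN : L ≤ N)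
    (h : ∀ j ∈ Finset.Ioc L N, A j ≤ M * (1 / 4) ^ j) :
    (∑ j ∈ Finset.Ioc L N, A j) * 3 ≤ M * ((1 / 4) ^ L - (1 / 4) ^ N) := by
  induction N, hLN using Nat.le_induction with
  | base => simp
  | succ N hN ih =>
    have h1 := ih fun j hj => h j (by
      rw [Finset.mem_Ioc] at hj ⊢
      omega)
    have h2 := h (N + 1) (by
      rw [Finset.mem_Ioc]
      omega)
    rw [← Finset.insert_Ioc_right_eq_Ioc_add_one (by omega), sum_insert (by simp), add_mul]
    rw [pow_succ] at h2 ⊢
    nlinarith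

/-- colourings compatible with a critical relation with large support are rare -/
theorem wcard_bad_pos (w L m Q : ℕ) (hw : 1 ≤ w) (hL : 1 ≤ L) (hQ : 1 ≤ Q)
    (lam : Small V (w * L) → ℝ) (hc : Closed m Q (w * L) lam) :
    (univ.filter fun β : V → Fin (wcols w L Q) =>
      ∃ r : Small V (w * L), Crit lam r ∧ L < (supp r.1).card ∧ r.1 ≤ Setoid.ker β).card
      * (4 * 2 ^ L) ≤ wcols w L Q ^ Fintype.card V := by
  have hwL : 1 ≤ w * L := Nat.mul_pos hw hL
  unfold wcols
  set K := 4 * (w * L) * (w * L + 1) * Q with hK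
  have hKpos : 0 < K := by positivity
  clear_value K
  set M := ((4 * K) ^ 2) ^ Fintype.card V with hM
  set A : ℕ → ℕ := fun j => (univ.filter fun β : V → Fin ((4 * K) ^ 2) =>
        ∃ r : Small V (w * L), (Crit lam r ∧ (supp r.1).card = j) ∧ r.1 ≤ Setoid.ker β).card
    with hA
  -- for each support size
  have key : ∀ j ∈ Finset.Ioc L (w * L), A j * 4 ^ j ≤ M := by
    intro j hj
    rw [Finset.mem_Ioc] at hj
    have h1 : (univ.filter fun β : V → Fin ((4 * K) ^ 2) =>
        ∃ r : Small V (w * L), (Crit lam r ∧ (supp r.1).card = j) ∧ r.1 ≤ Setoid.ker β)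
        ⊆ (univ.filter fun r : Small V (w * L) => Crit lam r ∧ (supp r.1).card = j).biUnion
          (fun r => univ.filter fun β : V → Fin ((4 * K) ^ 2) => r.1 ≤ Setoid.ker β) := by
      intro β hβ
      simp only [mem_filter, mem_univ, true_and, mem_biUnion] at hβ ⊢
      obtain ⟨r, h, h'⟩ := hβ
      exact ⟨r, h, h'⟩
    have h2 : ∀ r ∈ (univ.filter fun r : Small V (w * L) => Crit lam r ∧ (supp r.1).card = j),
        (univ.filter fun β : V → Fin ((4 * K) ^ 2) => r.1 ≤ Setoid.ker β).card * (4 * K) ^ j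
          ≤ M := by
      intro r hr
      simp only [mem_filter, mem_univ, true_and] at hr
      have := card_colourings (4 * K) r.1
      rwa [hr.2] at this
    have h3 : A j * (4 * K) ^ j ≤ K ^ j * M := by
      calc _ ≤ (∑ r ∈ (univ.filter fun r : Small V (w * L) => Crit lam r ∧ (supp r.1).card = j),
            (univ.filter fun β : V → Fin ((4 * K) ^ 2) => r.1 ≤ Setoid.ker β).card)
            * (4 * K) ^ j := Nat.mul_le_mul_right _ ((card_le_card h1).trans card_biUnion_le)
        _ = ∑ r ∈ (univ.filter fun r : Small V (w * L) => Crit lam r ∧ (supp r.1).card = j),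
            (univ.filter fun β : V → Fin ((4 * K) ^ 2) => r.1 ≤ Setoid.ker β).card
            * (4 * K) ^ j := by rw [Finset.sum_mul]
        _ ≤ ∑ r ∈ (univ.filter fun r : Small V (w * L) => Crit lam r ∧ (supp r.1).card = j), M :=
            Finset.sum_le_sum h2
        _ = (univ.filter fun r : Small V (w * L) => Crit lam r ∧ (supp r.1).card = j).card * M := by
            simp
        _ ≤ K ^ j * M := Nat.mul_le_mul_right _
            (by rw [hK]; exact card_crit (w * L) m Q hwL hQ lam hc j hj.2)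
    have : K ^ j * (A j * 4 ^ j) ≤ K ^ j * M := by
      calc _ = A j * (4 * K) ^ j := by rw [mul_pow]; ring
        _ ≤ _ := h3
    exact Nat.le_of_mul_le_mul_left this (by positivity)
  have hsub : (univ.filter fun β : V → Fin ((4 * K) ^ 2) =>
      ∃ r : Small V (w * L), Crit lam r ∧ L < (supp r.1).card ∧ r.1 ≤ Setoid.ker β)
      ⊆ (Finset.Ioc L (w * L)).biUnion (fun j => univ.filter fun β : V → Fin ((4 * K) ^ 2) =>
        ∃ r : Small V (w * L), (Crit lam r ∧ (supp r.1).card = j) ∧ r.1 ≤ Setoid.ker β) := by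
    intro β hβ
    simp only [mem_filter, mem_univ, true_and, mem_biUnion, mem_Ioc] at hβ ⊢
    obtain ⟨r, h, h', h''⟩ := hβ
    exact ⟨(supp r.1).card, ⟨h', r.2⟩, r, ⟨h, rfl⟩, h''⟩
  have hle : L ≤ w * L := Nat.le_mul_of_pos_left L hw
  have hgeom := geom_aux (fun j => (A j : ℝ)) (M : ℝ) L (w * L) hle (by
    intro j hj
    have h1 : (A j : ℝ) * 4 ^ j ≤ M := by exact_mod_cast key j hj
    have h2 : (M : ℝ) * (1 / 4) ^ j = M / 4 ^ j := by
      rw [one_div, inv_pow]; rfl
    rw [h2, le_div_iff₀ (by positivity)]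
    exact h1)
  have hcard : ((univ.filter fun β : V → Fin ((4 * K) ^ 2) =>
      ∃ r : Small V (w * L), Crit lam r ∧ L < (supp r.1).card ∧ r.1 ≤ Setoid.ker β).card : ℝ)
      ≤ ∑ j ∈ Finset.Ioc L (w * L), (A j : ℝ) := by
    exact_mod_cast (card_le_card hsub).trans card_biUnion_le
  set X := (univ.filter fun β : V → Fin ((4 * K) ^ 2) =>
      ∃ r : Small V (w * L), Crit lam r ∧ L < (supp r.1).card ∧ r.1 ≤ Setoid.ker β).card with hX
  have h1 : (X : ℝ) * 3 ≤ M * (1 / 4) ^ L := by
    have h2 : (0 : ℝ) ≤ M * (1 / 4) ^ (w * L) := by positivity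
    have h3 : (X : ℝ) * 3 ≤ (∑ j ∈ Finset.Ioc L (w * L), (A j : ℝ)) * 3 := by linarith
    linarith [mul_sub (M : ℝ) ((1 / 4) ^ L) ((1 / 4) ^ (w * L))]
  have h2 : (X : ℝ) * (4 * 2 ^ L) ≤ M := by
    have h3 : (2 : ℝ) ≤ 2 ^ L := by
      calc (2 : ℝ) = 2 ^ 1 := (pow_one _).symm
        _ ≤ 2 ^ L := pow_le_pow_right₀ (by norm_num) hL
    have h4 : (1 / 4 : ℝ) ^ L * (2 ^ L * 2 ^ L) = 1 := by
      rw [← mul_pow, ← mul_pow]
      norm_num
    have h5 : (X : ℝ) * 3 * (2 ^ L * 2 ^ L) ≤ M := by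
      calc (X : ℝ) * 3 * (2 ^ L * 2 ^ L) ≤ M * (1 / 4) ^ L * (2 ^ L * 2 ^ L) :=
            mul_le_mul_of_nonneg_right h1 (by positivity)
        _ = M * ((1 / 4) ^ L * (2 ^ L * 2 ^ L)) := by ring
        _ = M := by rw [h4, mul_one]
    have h6 : (X : ℝ) * (4 * 2 ^ L) ≤ (X : ℝ) * 3 * (2 ^ L * 2 ^ L) := by
      have h7 : (0 : ℝ) ≤ X * 2 ^ L := by positivity
      nlinarith
    linarith
  exact_mod_cast h2

/-- the approximation property of a function on graphs outside given bad sets of tests -/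
def WApprox (V : Type*) [Fintype V] (w L m Q : ℕ) (badP : Finset (V → Fin (wcols w L Q)))
    (badN : Finset (Om V m Q)) (f : SimpleGraph V → ℝ) : Prop :=
  ∃ lam : Small V (w * L) → ℝ, (∀ r r', r.1 ≤ r'.1 → lam r ≤ lam r') ∧
    (∀ β, β ∉ badP → ∃ r : Small V (w * L), (supp r.1).card ≤ L ∧ r.1 ≤ Setoid.ker β ∧
      f (classGraph β) ≤ lam r) ∧
    (∀ ω, ω ∉ badN → ∀ r : Small V (w * L), Sat (marked ω) ⊥ r.1 →
      lam r ≤ f (touchGraph (marked ω)))

theorem WApprox.mono {w L m Q : ℕ} {badP badP' : Finset (V → Fin (wcols w L Q))}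
    {badN badN' : Finset (Om V m Q)} {f : SimpleGraph V → ℝ} (h : WApprox V w L m Q badP badN f)
    (hP : badP ⊆ badP') (hN : badN ⊆ badN') : WApprox V w L m Q badP' badN' f := by
  obtain ⟨lam, h1, h2, h3⟩ := h
  exact ⟨lam, h1, fun β hβ => h2 β (fun h => hβ (hP h)), fun ω hω => h3 ω (fun h => hω (hN h))⟩

/-- one step: from a raw level function to an approximation -/
theorem wapprox_step [Nonempty V] (w L m Q : ℕ) (hw : 1 ≤ w) (hL : 1 ≤ L) (hm : 1 ≤ m)
    (hQ : 1 ≤ Q)
    (badP : Finset (V → Fin (wcols w L Q))) (badN : Finset (Om V m Q)) (f : SimpleGraph V → ℝ)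
    (lam : Small V (w * L) → ℝ)
    (hP : ∀ β, β ∉ badP → ∃ r : Small V (w * L), r.1 ≤ Setoid.ker β ∧ f (classGraph β) ≤ lam r)
    (hN : ∀ ω, ω ∉ badN → ∀ r : Small V (w * L), Sat (marked ω) ⊥ r.1 →
      lam r ≤ f (touchGraph (marked ω))) :
    ∃ (newP : Finset (V → Fin (wcols w L Q))) (newN : Finset (Om V m Q)),
      newP.card * (4 * 2 ^ L) ≤ wcols w L Q ^ Fintype.card V ∧
      newN.card * 2 ^ m ≤ Fintype.card V ^ (2 * (w * L)) * Fintype.card (Om V m Q) ∧
      WApprox V w L m Q (badP ∪ newP) (badN ∪ newN) f := by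
  obtain ⟨lam', h1, h2, h3⟩ := exists_closed m Q (w * L) hm hQ lam
  refine ⟨univ.filter fun β => ∃ r : Small V (w * L), Crit lam' r ∧ L < (supp r.1).card ∧
      r.1 ≤ Setoid.ker β, univ.filter fun ω : Om V m Q => ∃ r : Small V (w * L),
      Sat (marked ω) ⊥ r.1 ∧ ∀ r' : Small V (w * L), Sat (marked ω) ⊥ r'.1 → lam r' < lam' r,
      wcard_bad_pos w L m Q hw hL hQ lam' h2, h3, lam', fun r r' h => h2.mono h, ?_, ?_⟩
  · intro β hβ
    simp only [mem_union, mem_filter, mem_univ, true_and, not_or, not_exists, not_and] at hβ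
    obtain ⟨r0, hr0, hr0'⟩ := hP β hβ.1
    -- choose a minimal witness
    have hne : (univ.filter fun r : Small V (w * L) => r.1 ≤ Setoid.ker β ∧
        f (classGraph β) ≤ lam' r).Nonempty :=
      ⟨r0, by simp only [mem_filter, mem_univ, true_and]; exact ⟨hr0, hr0'.trans (h1 r0)⟩⟩
    obtain ⟨r, hr, hmin⟩ := Finset.exists_minimal hne
    simp only [mem_filter, mem_univ, true_and] at hr hmin
    refine ⟨r, ?_, hr.1, hr.2⟩
    by_contra hcard
    rw [not_le] at hcard
    refine hβ.2 r ?_ hcard hr.1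
    intro r' hr' hne'
    by_contra hlt
    rw [not_lt] at hlt
    have := hmin ⟨hr'.trans hr.1, hr.2.trans hlt⟩ hr'
    exact hne' (Subtype.ext (le_antisymm hr' this))
  · intro ω hω r hr
    simp only [mem_union, mem_filter, mem_univ, true_and, not_or, not_exists, not_and,
      not_forall, not_lt] at hω
    obtain ⟨r', hr', hle⟩ := hω.2 r hr
    exact hle.trans (hN ω hω.1 r' hr')

/-- inputs are approximated without errors -/
theorem wapprox_input (w L m Q : ℕ) (hw : 1 ≤ w) (hL : 2 ≤ L)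
    {f : SimpleGraph V → ℝ} (hf : f ∈ graphInputs V) : WApprox V w L m Q ∅ ∅ f := by
  have hwL : L ≤ w * L := Nat.le_mul_of_pos_left L hw
  have hbot : (supp (⊥ : Setoid V)).card ≤ w * L := by rw [supp_bot]; simp
  have hbotL : (supp (⊥ : Setoid V)).card ≤ L := by rw [supp_bot]; simp
  rcases hf with ⟨u, v, rfl⟩ | ⟨c, rfl⟩
  · refine ⟨fun r => if u ≠ v ∧ r.1 u v then 1 else 0, ?_, ?_, ?_⟩
    · intro r r' h
      beta_reduce
      by_cases h1 : u ≠ v ∧ r.1 u v
      · have h2 : u ≠ v ∧ r'.1 u v := ⟨h1.1, h h1.2⟩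
        rw [if_pos h1, if_pos h2]
      · rw [if_neg h1]
        split_ifs <;> norm_num
    · intro β _
      by_cases h : (classGraph β).Adj u v
      · refine ⟨⟨restr {u, v} ⊤, pair_small (hL.trans hwL) u v⟩, pair_small hL u v, ?_, ?_⟩
        · intro x y hxy
          rcases hxy with hxy | ⟨hx, hy, -⟩
          · subst hxy; rfl
          · have huv : β u = β v := h.2
            simp only [mem_insert, mem_singleton] at hx hy
            rw [Setoid.ker_def]
            rcases hx with rfl | rfl <;> rcases hy with rfl | rfl <;> simp [huv]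
        · have hr : restr {u, v} (⊤ : Setoid V) u v :=
            Or.inr ⟨by simp, by simp, trivial⟩
          simp only [edgeBit, h, if_true]
          rw [if_pos ⟨h.1, hr⟩]
      · refine ⟨⟨⊥, hbot⟩, hbotL, bot_le, ?_⟩
        simp only [edgeBit, h, if_false]
        split_ifs <;> norm_num
    · intro ω _ r hr
      simp only [edgeBit]
      by_cases h : u ≠ v ∧ r.1 u v
      · rw [if_pos h]
        have : (touchGraph (marked ω)).Adj u v := by
          refine ⟨h.1, ?_⟩
          by_contra hcon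
          rw [not_or] at hcon
          exact h.1 (hr u v hcon.1 hcon.2 h.2)
        rw [if_pos this]
      · rw [if_neg h]
        split_ifs <;> norm_num
  · exact ⟨fun _ => c, fun _ _ _ => le_rfl, fun β _ => ⟨⟨⊥, hbot⟩, hbotL, bot_le, le_rfl⟩,
      fun ω _ r _ => le_rfl⟩

/-- the supremum of several small relations -/
theorem exists_sup {ι : Type*} (S : Finset ι) (r : ι → Setoid V) (L : ℕ) (s : Setoid V)
    (h : ∀ i ∈ S, (supp (r i)).card ≤ L ∧ r i ≤ s) :
    ∃ r' : Setoid V, (supp r').card ≤ S.card * L ∧ r' ≤ s ∧ ∀ i ∈ S, r i ≤ r' := by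
  induction S using Finset.induction_on with
  | empty =>
    refine ⟨⊥, ?_, bot_le, by simp⟩
    rw [supp_bot]
    simp
  | insert i S hi ih =>
    obtain ⟨r', h1, h2, h3⟩ := ih fun j hj => h j (mem_insert_of_mem hj)
    obtain ⟨g1, g2⟩ := h i (mem_insert_self _ _)
    refine ⟨r i ⊔ r', ?_, sup_le g2 h2, ?_⟩
    · refine (card_le_card (supp_sup_subset _ _)).trans ((card_union_le _ _).trans ?_)
      rw [card_insert_of_notMem hi]
      calc (supp (r i)).card + (supp r').card ≤ L + S.card * L := Nat.add_le_add g1 h1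
        _ = (S.card + 1) * L := by ring
    · intro j hj
      rcases mem_insert.1 hj with rfl | hj
      · exact le_sup_left
      · exact (h3 j hj).trans le_sup_right

theorem wapprox_prog [Nonempty V] (w L m Q : ℕ) (hw : 1 ≤ w) (hL : 2 ≤ L) (hm : 1 ≤ m)
    (hQ : 1 ≤ Q) {l : List (SimpleGraph V → ℝ)} (hp : WProg w (graphInputs V) l) :
    ∃ (badP : Finset (V → Fin (wcols w L Q))) (badN : Finset (Om V m Q)),
      badP.card * (4 * 2 ^ L) ≤ l.length * wcols w L Q ^ Fintype.card V ∧
      badN.card * 2 ^ m ≤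
        l.length * (Fintype.card V ^ (2 * (w * L)) * Fintype.card (Om V m Q)) ∧
      ∀ f ∈ l, WApprox V w L m Q badP badN f := by
  induction hp with
  | nil => exact ⟨∅, ∅, by simp, by simp, by simp⟩
  | @gate l S φ f hp hS hSl hφ hf ih =>
    obtain ⟨badP, badN, h1, h2, h3⟩ := ih
    have hall : ∀ g ∈ S, WApprox V w L m Q badP badN g := by
      intro g hg
      rcases hSl g hg with h | h
      · exact (wapprox_input w L m Q hw hL h).mono (empty_subset _) (empty_subset _)
      · exact h3 g h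
    have hex : ∀ g : SimpleGraph V → ℝ, ∃ lam : Small V (w * L) → ℝ, g ∈ S →
        (∀ r r', r.1 ≤ r'.1 → lam r ≤ lam r') ∧
        (∀ β, β ∉ badP → ∃ r : Small V (w * L), (supp r.1).card ≤ L ∧ r.1 ≤ Setoid.ker β ∧
          g (classGraph β) ≤ lam r) ∧
        (∀ ω, ω ∉ badN → ∀ r : Small V (w * L), Sat (marked ω) ⊥ r.1 →
          lam r ≤ g (touchGraph (marked ω))) := by
      intro g
      by_cases hg : g ∈ S
      · obtain ⟨lam, h⟩ := hall g hg
        exact ⟨lam, fun _ => h⟩
      · exact ⟨fun _ => 0, fun h => absurd h hg⟩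
    choose lam hlam using hex
    obtain ⟨newP, newN, g1, g2, g3⟩ := wapprox_step w L m Q hw (by omega) hm hQ badP badN f
      (fun r => φ fun g => lam g r)
      (by
        intro β hβ
        have hr : ∀ g : SimpleGraph V → ℝ, ∃ r : Setoid V, g ∈ S →
            (supp r).card ≤ L ∧ r ≤ Setoid.ker β ∧ ∀ r' : Small V (w * L), r ≤ r'.1 →
              g (classGraph β) ≤ lam g r' := by
          intro g
          by_cases hg : g ∈ S
          · obtain ⟨r, e1, e2, e3⟩ := (hlam g hg).2.1 β hβ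
            exact ⟨r.1, fun _ => ⟨e1, e2, fun r' hr' => e3.trans ((hlam g hg).1 r r' hr')⟩⟩
          · exact ⟨⊥, fun h => absurd h hg⟩
        choose r hr using hr
        obtain ⟨r', e1, e2, e3⟩ := exists_sup S r L (Setoid.ker β)
          fun g hg => ⟨(hr g hg).1, (hr g hg).2.1⟩
        refine ⟨⟨r', e1.trans (Nat.mul_le_mul_right _ hS)⟩, e2, ?_⟩
        rw [hf]
        exact hφ _ _ fun g hg => (hr g hg).2.2 _ (e3 g hg))
      (by
        intro ω hω r hr
        rw [hf]
        exact hφ _ _ fun g hg => (hlam g hg).2.2 ω hω r hr)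
    refine ⟨badP ∪ newP, badN ∪ newN, ?_, ?_, ?_⟩
    · calc _ ≤ (badP.card + newP.card) * (4 * 2 ^ L) :=
            Nat.mul_le_mul_right _ (card_union_le _ _)
        _ = badP.card * (4 * 2 ^ L) + newP.card * (4 * 2 ^ L) := by ring
        _ ≤ l.length * wcols w L Q ^ Fintype.card V + wcols w L Q ^ Fintype.card V := by gcongr
        _ = _ := by rw [List.length_cons]; ring
    · calc _ ≤ (badN.card + newN.card) * 2 ^ m :=
            Nat.mul_le_mul_right _ (card_union_le _ _)
        _ = badN.card * 2 ^ m + newN.card * 2 ^ m := by ring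
        _ ≤ l.length * (Fintype.card V ^ (2 * (w * L)) * Fintype.card (Om V m Q)) +
            Fintype.card V ^ (2 * (w * L)) * Fintype.card (Om V m Q) := by gcongr
        _ = _ := by rw [List.length_cons]; ring
    · intro g hg
      rcases List.mem_cons.1 hg with rfl | hg
      · exact g3
      · exact (h3 g hg).mono subset_union_left subset_union_left

/-- the core lower bound -/
theorem wcore [Nonempty V] (w L m Q t : ℕ) (hw : 1 ≤ w) (hL : 2 ≤ L) (hQ : 1 ≤ Q)
    {l : List (SimpleGraph V → ℝ)} (hp : WProg w (graphInputs V) l) {f : SimpleGraph V → ℝ}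
    (hf : f ∈ l) (θ : ℝ) (hpos : ∀ β : V → Fin (wcols w L Q), θ ≤ f (classGraph β))
    (hneg : ∀ T : Finset V, T.card ≤ t → f (touchGraph T) < θ)
    (ht : 2 * (L * Q + Fintype.card V * m) ≤ t * Q)
    (hm : 2 ^ L * Fintype.card V ^ (2 * (w * L)) * (2 * Q ^ L) ≤ 2 ^ m) : 2 ^ L ≤ l.length := by
  by_contra hlt
  rw [not_le] at hlt
  have hn : 1 ≤ Fintype.card V := Fintype.card_pos
  have hm1 : 1 ≤ m := by
    by_contra h0
    have h0' : m = 0 := by omega
    subst h0'
    have h1 : 1 ≤ 2 ^ L * Fintype.card V ^ (2 * (w * L)) :=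
      Nat.one_le_iff_ne_zero.2 (by positivity)
    have h2 : 2 ≤ 2 * Q ^ L := by
      have : 1 ≤ Q ^ L := Nat.one_le_pow _ _ hQ
      omega
    have := Nat.mul_le_mul h1 h2
    simp at hm
    omega
  obtain ⟨badP, badN, hP, hN, happ⟩ := wapprox_prog w L m Q hw hL hm1 hQ hp
  obtain ⟨lam, -, hp1, hn1⟩ := happ f hf
  -- a good positive test
  have hcolspos : 0 < wcols w L Q := by
    unfold wcols
    positivity
  have hcolcard : Fintype.card (V → Fin (wcols w L Q)) = wcols w L Q ^ Fintype.card V := by simp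
  have hgood : ∃ β : V → Fin (wcols w L Q), β ∉ badP := by
    by_contra hcon
    push Not at hcon
    have hall : badP = univ := Finset.eq_univ_iff_forall.2 hcon
    rw [hall, card_univ, hcolcard] at hP
    have hpw : 0 < wcols w L Q ^ Fintype.card V := by positivity
    have : wcols w L Q ^ Fintype.card V * (4 * 2 ^ L)
        < wcols w L Q ^ Fintype.card V * (4 * 2 ^ L) := by
      calc _ ≤ l.length * wcols w L Q ^ Fintype.card V := hP
        _ < 2 ^ L * wcols w L Q ^ Fintype.card V := by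
            exact Nat.mul_lt_mul_of_pos_right hlt hpw
        _ ≤ _ := by nlinarith
    exact lt_irrefl _ this
  obtain ⟨β, hβ⟩ := hgood
  obtain ⟨r, hrL, -, hr⟩ := hp1 β hβ
  have hθ : θ ≤ lam r := (hpos β).trans hr
  -- a good negative test
  have ht' : 2 * ((supp r.1).card * Q + Fintype.card V * m) ≤ t * Q := by
    have := Nat.mul_le_mul_right Q hrL
    omega
  have hNeg := card_neg m Q t hm1 hQ (supp r.1) ht'
  have hOm : 0 < Fintype.card (Om V m Q) := by
    have : NeZero Q := ⟨by omega⟩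
    exact Fintype.card_pos
  have hex : ∃ ω : Om V m Q, ω ∉ badN ∧ supp r.1 ⊆ marked ω ∧ (marked ω).card ≤ t := by
    by_contra hcon
    push Not at hcon
    have hsub : (univ.filter fun ω : Om V m Q => supp r.1 ⊆ marked ω ∧ (marked ω).card ≤ t)
        ⊆ badN := by
      intro ω hω
      simp only [mem_filter, mem_univ, true_and] at hω
      by_contra hω'
      exact absurd hω.2 (not_le.2 (hcon ω hω' hω.1))
    have h1 : Fintype.card (Om V m Q) ≤ badN.card * (2 * Q ^ L) := by
      calc _ ≤ _ := hNeg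
        _ ≤ badN.card * (2 * Q ^ L) := by
            apply Nat.mul_le_mul (card_le_card hsub)
            apply Nat.mul_le_mul_left
            exact Nat.pow_le_pow_right hQ hrL
    have h2 : Fintype.card (Om V m Q) * 2 ^ m < Fintype.card (Om V m Q) * 2 ^ m := by
      calc Fintype.card (Om V m Q) * 2 ^ m ≤ badN.card * (2 * Q ^ L) * 2 ^ m :=
            Nat.mul_le_mul_right _ h1
        _ = badN.card * 2 ^ m * (2 * Q ^ L) := by ring
        _ ≤ l.length * (Fintype.card V ^ (2 * (w * L)) * Fintype.card (Om V m Q)) *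
            (2 * Q ^ L) := Nat.mul_le_mul_right _ hN
        _ = l.length * (Fintype.card V ^ (2 * (w * L)) * Fintype.card (Om V m Q) *
            (2 * Q ^ L)) := by ring
        _ < 2 ^ L * (Fintype.card V ^ (2 * (w * L)) * Fintype.card (Om V m Q) *
            (2 * Q ^ L)) := by
            apply Nat.mul_lt_mul_of_pos_right hlt
            positivity
        _ = Fintype.card (Om V m Q) *
            (2 ^ L * Fintype.card V ^ (2 * (w * L)) * (2 * Q ^ L)) := by ring
        _ ≤ Fintype.card (Om V m Q) * 2 ^ m := Nat.mul_le_mul_left _ hm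
    exact lt_irrefl _ h2
  obtain ⟨ω, hω, hsup, hcard⟩ := hex
  have h1 := hn1 ω hω r (sat_bot_of_supp_subset hsup)
  exact absurd (hθ.trans h1) (not_le.2 (hneg _ hcard))

end H50CP
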