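import Pool.Agent.H50.CP.Defs
import Pool.Agent.H50.CP.WCore

/-! # From arguments to circuits of monotone real gates -/

open scoped Classical
open Finset H630VC

namespace H50CP

/-- interpolation of one line by a monotone real gate -/
theorem exists_gate {X Y ι : Type*} [Finite X] [Finite Y] (S : Finset ι) (p : X → ι → ℝ)
    (α : X → ℝ) (q : Y → ι → ℝ) (φ : Y → ℝ)
    (h : ∀ x y, (∀ i ∈ S, p x i ≤ q y i) → α x ≤ φ y) :
    ∃ ψ : (ι → ℝ) → ℝ, (∀ a b : ι → ℝ, (∀ i ∈ S, a i ≤ b i) → ψ a ≤ ψ b) ∧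
      (∀ x, α x ≤ ψ (p x)) ∧ ∀ y, ψ (q y) ≤ φ y := by
  obtain ⟨m, hm⟩ : ∃ m : ℝ, ∀ y, m ≤ φ y := by
    obtain ⟨m, hm⟩ := (Set.finite_range φ).bddBelow
    exact ⟨m, fun y => hm ⟨y, rfl⟩⟩
  let T : (ι → ℝ) → Set ℝ := fun a => insert m {r | ∃ x, (∀ i ∈ S, p x i ≤ a i) ∧ r = α x}
  have hne : ∀ a, (T a).Nonempty := fun a => ⟨m, Set.mem_insert _ _⟩
  have hbdd : ∀ a, BddAbove (T a) := by
    intro a
    apply Set.Finite.bddAbove
    apply Set.Finite.insert
    apply (Set.finite_range α).subset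
    rintro r ⟨x, -, rfl⟩
    exact ⟨x, rfl⟩
  refine ⟨fun a => sSup (T a), ?_, ?_, ?_⟩
  · intro a b hab
    apply csSup_le_csSup (hbdd _) (hne _)
    apply Set.insert_subset_insert
    rintro r ⟨x, h1, rfl⟩
    exact ⟨x, fun i hi => (h1 i hi).trans (hab i hi), rfl⟩
  · intro x
    exact le_csSup (hbdd _) (Set.mem_insert_of_mem _ ⟨x, fun _ _ => le_rfl, rfl⟩)
  · intro y
    apply csSup_le (hne _)
    rintro r (rfl | ⟨x, h1, rfl⟩)
    · exact hm y
    · exact h x y h1

theorem WProg.mono {I : Type*} {w w' : ℕ} (hw : w ≤ w') {inp : Set (I → ℝ)} {l : List (I → ℝ)}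
    (h : WProg w inp l) : WProg w' inp l := by
  induction h with
  | nil => exact WProg.nil
  | gate S φ f _ h1 h2 h3 h4 ih => exact WProg.gate S φ f ih (h1.trans hw) h2 h3 h4

section

variable {V I X Y X' : Type*} [Finite X'] [Finite Y] {Γ : X → SimpleGraph V}
  {𝓒 : Set (Finset V)} {w D : ℕ} (inp : Set (I → ℝ)) (P : X' → I) (N : Y → I) (ξ : X' → X)
  (cc : Y → Finset V)

/-- the gate `f` simulates the comparison `c` -/
def Sim (c : Comparison X V) (f : I → ℝ) : Prop :=
  (∀ x, c.g (ξ x) ≤ f (P x)) ∧ ∀ y, f (N y) ≤ c.F (cc y)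

omit [Finite X'] [Finite Y] in
theorem Sim.holds {c : Comparison X V} {f : I → ℝ} (h : Sim P N ξ cc c f) {x : X'} {y : Y}
    (hxy : f (P x) ≤ f (N y)) : c.Holds (ξ x) (cc y) :=
  (h.1 x).trans (hxy.trans (h.2 y))

/-- the gates for one line -/
theorem line_gates {S : Finset (I → ℝ)} (hS : S.card ≤ w) {l : List (I → ℝ)}
    (hl : WProg w inp l) (hSl : ∀ g ∈ S, g ∈ inp ∨ g ∈ l) (a : Finset (Comparison X V))
    (ha : ∀ x y, (∀ g ∈ S, g (P x) ≤ g (N y)) → ∀ c ∈ a, c.Holds (ξ x) (cc y)) :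
    ∃ l' : List (I → ℝ), WProg w inp l' ∧ l ⊆ l' ∧ l'.length = l.length + a.card ∧
      ∀ c ∈ a, ∃ f ∈ l', Sim P N ξ cc c f := by
  induction a using Finset.induction_on with
  | empty => exact ⟨l, hl, fun _ h => h, by simp, by simp⟩
  | insert c a hc ih =>
    obtain ⟨l', h1, h2, h3, h4⟩ := ih fun x y h c hc => ha x y h c (mem_insert_of_mem hc)
    obtain ⟨ψ, hψ, hψ1, hψ2⟩ := exists_gate S (fun (x : X') (g : I → ℝ) => g (P x))
      (fun x => c.g (ξ x)) (fun (y : Y) (g : I → ℝ) => g (N y)) (fun y => c.F (cc y))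
      (fun x y hxy => ha x y hxy c (mem_insert_self _ _))
    refine ⟨(fun x => ψ fun g => g x) :: l', WProg.gate S ψ _ h1 hS
      (fun g hg => (hSl g hg).imp id fun h => h2 h) hψ rfl,
      fun f hf => List.mem_cons_of_mem _ (h2 hf), ?_, ?_⟩
    · rw [List.length_cons, h3, card_insert_of_notMem hc]
      ring
    · intro d hd
      rcases mem_insert.1 hd with rfl | hd
      · exact ⟨_, List.mem_cons_self, hψ1, hψ2⟩
      · obtain ⟨f, hf, hf'⟩ := h4 d hd
        exact ⟨f, List.mem_cons_of_mem _ hf, hf'⟩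

/-- from arguments to circuits -/
theorem toProg (hcc : ∀ y, cc y ∈ 𝓒) (hD : 1 ≤ D) (e : V → V → I → ℝ) (he : ∀ u v, e u v ∈ inp)
    (hedge : ∀ u v x y, e u v (P x) ≤ e u v (N y) → (Γ (ξ x)).Adj u v → u ∈ cc y ∨ v ∈ cc y)
    {l : List (Finset (Comparison X V))} (hl : Argument Γ 𝓒 w D l) :
    ∃ l' : List (I → ℝ), WProg (w * D) inp l' ∧ l'.length ≤ D * l.length ∧
      ∀ a ∈ l, ∀ c ∈ a, ∃ f ∈ l', Sim P N ξ cc c f := by
  induction hl with
  | nil => exact ⟨[], WProg.nil, by simp, by simp⟩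
  | @step l a E B _ hacard hcard hB ha ih =>
    obtain ⟨l', h1, h2, h3⟩ := ih
    have hBD : ∀ b ∈ l, b.card ≤ D := by
      have key : ∀ {l : List (Finset (Comparison X V))}, Argument Γ 𝓒 w D l →
          ∀ b ∈ l, b.card ≤ D := by
        intro l hl
        induction hl with
        | nil => simp
        | step a E B _ h _ _ _ ih =>
          intro b hb
          rcases List.mem_cons.1 hb with rfl | hb
          · exact h
          · exact ih b hb
      exact key (by assumption)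
    have hex : ∀ d : Comparison X V, ∃ f : I → ℝ, (∃ b ∈ l, d ∈ b) → f ∈ l' ∧
        Sim P N ξ cc d f := by
      intro d
      by_cases hd : ∃ b ∈ l, d ∈ b
      · obtain ⟨b, hb, hdb⟩ := hd
        obtain ⟨f, hf⟩ := h3 b hb d hdb
        exact ⟨f, fun _ => hf⟩
      · exact ⟨fun _ => 0, fun h => absurd h hd⟩
    choose f hf using hex
    set S : Finset (I → ℝ) := (E.image fun p => e p.1 p.2) ∪ (B.biUnion id).image f with hS
    have hScard : S.card ≤ w * D := by
      have h4 : (B.biUnion id).card ≤ B.card * D := by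
        refine card_biUnion_le.trans ?_
        calc ∑ b ∈ B, (id b).card ≤ ∑ _b ∈ B, D := sum_le_sum fun b hb => hBD b (hB b hb)
          _ = B.card * D := by rw [sum_const, smul_eq_mul]
      calc S.card ≤ E.card + (B.biUnion id).card :=
            (card_union_le _ _).trans (Nat.add_le_add card_image_le card_image_le)
        _ ≤ E.card * D + B.card * D := Nat.add_le_add (Nat.le_mul_of_pos_right _ hD) h4
        _ = (E.card + B.card) * D := by ring
        _ ≤ w * D := Nat.mul_le_mul_right _ hcard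
    obtain ⟨l'', g1, g2, g3, g4⟩ := line_gates inp P N ξ cc hScard h1 (by
      intro g hg
      rcases mem_union.1 hg with hg | hg
      · obtain ⟨p, -, rfl⟩ := mem_image.1 hg
        exact Or.inl (he _ _)
      · obtain ⟨d, hd, rfl⟩ := mem_image.1 hg
        obtain ⟨b, hb, hdb⟩ := mem_biUnion.1 hd
        exact Or.inr (hf d ⟨b, hB b hb, hdb⟩).1) a (by
      intro x y hxy
      refine ha (ξ x) (cc y) (hcc y) ?_ ?_
      · intro p hp
        exact hedge p.1 p.2 x y (hxy _ (mem_union_left _ (mem_image.2 ⟨p, hp, rfl⟩)))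
      · intro b hb d hd
        exact (hf d ⟨b, hB b hb, hd⟩).2.holds (P := P) (N := N) (ξ := ξ) (cc := cc)
          (hxy _ (mem_union_right _ (mem_image_of_mem _ (mem_biUnion.2 ⟨b, hb, hd⟩)))))
    refine ⟨l'', g1, ?_, ?_⟩
    · rw [g3, List.length_cons]
      calc l'.length + a.card ≤ D * l.length + D := Nat.add_le_add h2 hacard
        _ = D * (l.length + 1) := by ring
    · intro b hb c hc
      rcases List.mem_cons.1 hb with rfl | hb
      · exact g4 c hc
      · obtain ⟨f, hf, hf'⟩ := h3 b hb c hc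
        exact ⟨f, g2 hf, hf'⟩

/-- if a line is false for all tests, then there is a circuit which separates the tests -/
theorem toProg_separates [Nonempty X'] (hcc : ∀ y, cc y ∈ 𝓒) (hD : 1 ≤ D) (hw : 1 ≤ w)
    (e : V → V → I → ℝ) (he : ∀ u v, e u v ∈ inp)
    (hedge : ∀ u v x y, e u v (P x) ≤ e u v (N y) → (Γ (ξ x)).Adj u v → u ∈ cc y ∨ v ∈ cc y)
    {l : List (Finset (Comparison X V))} (hl : Argument Γ 𝓒 w D l)
    (hno : ∃ a ∈ l, ∀ x y, ∃ c ∈ a, ¬ c.Holds (ξ x) (cc y)) :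
    ∃ l' : List (I → ℝ), WProg (w * D) inp l' ∧ l'.length ≤ D * l.length + 1 ∧
      ∃ f ∈ l', ∃ θ : ℝ, (∀ x, θ ≤ f (P x)) ∧ ∀ y, f (N y) < θ := by
  obtain ⟨a, ha, hno⟩ := hno
  have hacard : a.card ≤ D := by
    have key : ∀ {l : List (Finset (Comparison X V))}, Argument Γ 𝓒 w D l →
        ∀ b ∈ l, b.card ≤ D := by
      intro l hl
      induction hl with
      | nil => simp
      | step a E B _ h _ _ _ ih =>
        intro b hb
        rcases List.mem_cons.1 hb with rfl | hb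
        · exact h
        · exact ih b hb
    exact key hl a ha
  obtain ⟨l', h1, h2, h3⟩ := toProg inp P N ξ cc hcc hD e he hedge hl
  have hex : ∀ d : Comparison X V, ∃ f : I → ℝ, d ∈ a → f ∈ l' ∧ Sim P N ξ cc d f := by
    intro d
    by_cases hd : d ∈ a
    · obtain ⟨f, hf⟩ := h3 a ha d hd
      exact ⟨f, fun _ => hf⟩
    · exact ⟨fun _ => 0, fun h => absurd h hd⟩
  choose f hf using hex
  obtain ⟨ψ, hψ, hψ1, hψ2⟩ := exists_gate (a.image f) (fun (x : X') (g : I → ℝ) => g (P x))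
    (fun _ => 1) (fun (y : Y) (g : I → ℝ) => g (N y)) (fun _ => 0) (by
      intro x y hxy
      obtain ⟨c, hc, hc'⟩ := hno x y
      exact absurd ((hf c hc).2.holds (P := P) (N := N) (ξ := ξ) (cc := cc)
        (hxy _ (mem_image_of_mem _ hc))) hc')
  refine ⟨(fun x => ψ fun g => g x) :: l', WProg.gate (a.image f) ψ _ h1 ?_ ?_ hψ rfl, ?_,
    _, List.mem_cons_self, 1, hψ1, fun y => (hψ2 y).trans_lt one_pos⟩
  · exact card_image_le.trans (hacard.trans (Nat.le_mul_of_pos_left D hw))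
  · intro g hg
    obtain ⟨d, hd, rfl⟩ := mem_image.1 hg
    exact Or.inr (hf d hd).1
  · rw [List.length_cons]
    omega

end

end H50CP
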