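import Pool.Agent.H50.CP.Interp

/-! # Lower bounds for the length of arguments -/

open scoped Classical
open Finset H630VC

namespace H50CP

/-- the value of `Q` -/
abbrev QQ (n L a w : ℕ) : ℕ := a * (5 * (w * L) * (Nat.log 2 n + 1))

theorem cols_le (n L a w : ℕ) (hL : 1 ≤ L) (hw : 1 ≤ w) :
    wcols w L (QQ n L a w) ≤ 25600 * a ^ 2 * (w * L) ^ 6 * (Nat.log 2 n + 1) ^ 2 := by
  unfold wcols
  have hwL : 1 ≤ w * L := Nat.mul_pos hw hL
  have e1 : 4 * (4 * (w * L) * (w * L + 1) * (QQ n L a w)) ≤ 32 * (w * L) ^ 2 * QQ n L a w := by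
    have : 4 * (4 * (w * L) * (w * L + 1) * (QQ n L a w))
        = (16 * (w * L) ^ 2 + 16 * (w * L)) * QQ n L a w := by
      ring
    rw [this]
    apply Nat.mul_le_mul_right
    nlinarith
  calc (4 * (4 * (w * L) * (w * L + 1) * (QQ n L a w))) ^ 2
      ≤ (32 * (w * L) ^ 2 * QQ n L a w) ^ 2 := Nat.pow_le_pow_left e1 2
    _ = 25600 * a ^ 2 * (w * L) ^ 6 * (Nat.log 2 n + 1) ^ 2 := by
        unfold QQ
        ring

/-- the core lower bound with parameters -/
theorem core_params (n L a t w : ℕ) (hn : 1 ≤ n) (hL : 2 ≤ L) (ha : 1 ≤ a) (hw : 1 ≤ w)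
    (h1 : 4 * n ≤ t * a) (h2 : 4 * L ≤ t) (h3 : QQ n L a w ≤ n)
    {l : List (SimpleGraph (Fin n) → ℝ)} (hp : WProg w (graphInputs (Fin n)) l)
    {f : SimpleGraph (Fin n) → ℝ} (hf : f ∈ l) (θ : ℝ)
    (hpos : ∀ β : Fin n → Fin (wcols w L (QQ n L a w)), θ ≤ f (classGraph β))
    (hneg : ∀ T : Finset (Fin n), T.card ≤ t → f (touchGraph T) < θ) : 2 ^ L ≤ l.length := by
  have : Nonempty (Fin n) := ⟨⟨0, hn⟩⟩
  set lam := Nat.log 2 n + 1 with hlam
  have hnlam : n ≤ 2 ^ lam := (Nat.lt_pow_succ_log_self (by norm_num) n).le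
  have hlam1 : 1 ≤ lam := by omega
  set m := 5 * (w * L) * lam with hmdef
  have hm1 : 1 ≤ m := Nat.one_le_iff_ne_zero.2 (by positivity)
  have hQdef : QQ n L a w = a * m := rfl
  have hQ : 1 ≤ QQ n L a w := by
    rw [hQdef]
    exact Nat.one_le_iff_ne_zero.2 (by positivity)
  refine wcore w L m (QQ n L a w) t hw hL hQ hp hf θ hpos hneg ?_ ?_
  · rw [Fintype.card_fin]
    have e1 : 4 * (L * QQ n L a w) ≤ t * QQ n L a w := by
      calc 4 * (L * QQ n L a w) = 4 * L * QQ n L a w := by ring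
        _ ≤ t * QQ n L a w := Nat.mul_le_mul_right _ h2
    have e2 : 4 * (n * m) ≤ t * QQ n L a w := by
      calc 4 * (n * m) = 4 * n * m := by ring
        _ ≤ t * a * m := Nat.mul_le_mul_right _ h1
        _ = t * QQ n L a w := by rw [hQdef]; ring
    omega
  · rw [Fintype.card_fin]
    have e1 : n ^ (2 * (w * L)) ≤ 2 ^ (2 * (w * L) * lam) := by
      calc n ^ (2 * (w * L)) ≤ (2 ^ lam) ^ (2 * (w * L)) := Nat.pow_le_pow_left hnlam _
        _ = 2 ^ (2 * (w * L) * lam) := by rw [← pow_mul]; ring_nf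
    have e2 : QQ n L a w ^ L ≤ 2 ^ (L * lam) := by
      calc QQ n L a w ^ L ≤ (2 ^ lam) ^ L := Nat.pow_le_pow_left (h3.trans hnlam) _
        _ = 2 ^ (L * lam) := by rw [← pow_mul]; ring_nf
    calc 2 ^ L * n ^ (2 * (w * L)) * (2 * QQ n L a w ^ L)
        ≤ 2 ^ L * 2 ^ (2 * (w * L) * lam) * (2 * 2 ^ (L * lam)) := by
          gcongr
      _ = 2 ^ (L + 2 * (w * L) * lam + (1 + L * lam)) := by
          rw [pow_add, pow_add, pow_add]; ring
      _ ≤ 2 ^ m := by
          apply Nat.pow_le_pow_right (by norm_num)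
          rw [hmdef]
          have g1 : L ≤ w * L := Nat.le_mul_of_pos_left L hw
          have g2 : L * lam ≤ w * L * lam := Nat.mul_le_mul_right _ g1
          have g3 : L ≤ L * lam := Nat.le_mul_of_pos_right L hlam1
          have g4 : 5 * (w * L) * lam = 5 * (w * L * lam) := by ring
          have g5 : 2 * (w * L) * lam = 2 * (w * L * lam) := by ring
          rw [g4, g5]
          omega

/-- lower bound for all graphs, explicit -/
theorem lower_all {X : Type*} {n L a t w D : ℕ} {Γ : X → SimpleGraph (Fin n)}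
    {𝓒 : Set (Finset (Fin n))} (hn : 1 ≤ n) (hL : 2 ≤ L) (ha : 1 ≤ a) (hw : 1 ≤ w) (hD : 1 ≤ D)
    (h1 : 4 * n ≤ t * a) (h2 : 4 * L ≤ t) (h3 : QQ n L a (w * D) ≤ n)
    (ξ : (Fin n → Fin (wcols (w * D) L (QQ n L a (w * D)))) → X)
    (hξ : ∀ β, Γ (ξ β) = classGraph β) (h𝓒 : ∀ T : Finset (Fin n), T.card ≤ t → T ∈ 𝓒)
    {l : List (Finset (Comparison X (Fin n)))} (hl : Argument Γ 𝓒 w D l)
    (hno : ∃ b ∈ l, ∀ β, ∀ T : Finset (Fin n), T.card ≤ t → ∃ c ∈ b, ¬ c.Holds (ξ β) T) :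
    2 ^ L ≤ D * l.length + 1 := by
  have hwD : 1 ≤ w * D := Nat.mul_pos hw hD
  have hQ : 0 < QQ n L a (w * D) := by
    unfold QQ
    positivity
  have hc : 0 < wcols (w * D) L (QQ n L a (w * D)) := by
    unfold wcols
    positivity
  have : Nonempty (Fin (wcols (w * D) L (QQ n L a (w * D)))) := ⟨⟨0, hc⟩⟩
  obtain ⟨b, hb, hb'⟩ := hno
  obtain ⟨l', g1, g2, f, hf, θ, g3, g4⟩ := toProg_separates (graphInputs (Fin n))
    (fun β : Fin n → Fin (wcols (w * D) L (QQ n L a (w * D))) => classGraph β)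
    (fun T : {T : Finset (Fin n) // T.card ≤ t} => touchGraph T.1) ξ (fun T => T.1)
    (fun T => h𝓒 T.1 T.2) hD hw edgeBit (fun u v => Or.inl ⟨u, v, rfl⟩)
    (by
      intro u v β T h hadj
      have hadj' : (classGraph β).Adj u v := by rwa [hξ] at hadj
      simp only [edgeBit, hadj', if_true] at h
      by_contra hcon
      have : ¬ (touchGraph T.1).Adj u v := fun h' => hcon h'.2
      rw [if_neg this] at h
      linarith) hl ⟨b, hb, fun β T => hb' β T.1 T.2⟩
  exact (core_params n L a t (w * D) hn hL ha hwD h1 h2 h3 g1 hf θ g3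
    (fun T hT => g4 ⟨T, hT⟩)).trans g2

/-- lower bound for graphs with a perfect matching, explicit -/
theorem lower_pm {X : Type*} {n L a t w D : ℕ} {Γ : X → SimpleGraph (Fin n ⊕ Fin n)}
    {𝓒 : Set (Finset (Fin n ⊕ Fin n))} (hn : 1 ≤ n) (hL : 2 ≤ L) (ha : 1 ≤ a) (hw : 1 ≤ w)
    (hD : 1 ≤ D)
    (h1 : 4 * n ≤ t * a) (h2 : 4 * L ≤ t) (h3 : QQ n L a (w * D) ≤ n)
    (ξ : (Fin n → Fin (wcols (w * D) L (QQ n L a (w * D)))) → X)
    (hξ : ∀ β, Γ (ξ β) = joinGraph (classGraph β))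
    (h𝓒 : ∀ T : Finset (Fin n ⊕ Fin n), T.card ≤ n + t → T ∈ 𝓒)
    {l : List (Finset (Comparison X (Fin n ⊕ Fin n)))} (hl : Argument Γ 𝓒 w D l)
    (hno : ∃ b ∈ l, ∀ β, ∀ T : Finset (Fin n ⊕ Fin n), T.card ≤ n + t →
      ∃ c ∈ b, ¬ c.Holds (ξ β) T) :
    2 ^ L ≤ D * l.length + 1 := by
  have hwD : 1 ≤ w * D := Nat.mul_pos hw hD
  have hQ : 0 < QQ n L a (w * D) := by
    unfold QQ
    positivity
  have hc : 0 < wcols (w * D) L (QQ n L a (w * D)) := by
    unfold wcols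
    positivity
  have : Nonempty (Fin (wcols (w * D) L (QQ n L a (w * D)))) := ⟨⟨0, hc⟩⟩
  have hT : ∀ T : {T : Finset (Fin n) // T.card ≤ t},
      ((univ : Finset (Fin n)).disjSum T.1).card ≤ n + t := by
    intro T
    rw [card_disjSum, card_univ, Fintype.card_fin]
    exact Nat.add_le_add_left T.2 n
  obtain ⟨b, hb, hb'⟩ := hno
  obtain ⟨l', g1, g2, f, hf, θ, g3, g4⟩ := toProg_separates (graphInputs (Fin n))
    (fun β : Fin n → Fin (wcols (w * D) L (QQ n L a (w * D))) => classGraph β)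
    (fun T : {T : Finset (Fin n) // T.card ≤ t} => touchGraph T.1) ξ
    (fun T => univ.disjSum T.1) (fun T => h𝓒 _ (hT T)) hD hw
    (fun u v H => edgeBit u v (joinGraph H))
    (fun u v => join_inputs (fun x => if x.G.Adj u v then 1 else 0) (Or.inl ⟨u, v, rfl⟩))
    (by
      intro u v β T h hadj
      have hadj' : (joinGraph (classGraph β)).Adj u v := by rwa [hξ] at hadj
      simp only [edgeBit, hadj', if_true] at h
      by_contra hcon
      have : ¬ (joinGraph (touchGraph T.1)).Adj u v := fun h' =>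
        hcon (isCover_joinGraph _ T.1 (isCover_touchGraph T.1) u v h')
      rw [if_neg this] at h
      linarith) hl ⟨b, hb, fun β T => hb' β _ (hT T)⟩
  exact (core_params n L a t (w * D) hn hL ha hwD h1 h2 h3 g1 hf θ g3
    (fun T hT => g4 ⟨T, hT⟩)).trans g2

/-- arguments with larger parameters -/
theorem Argument.mono {X V : Type*} {Γ : X → SimpleGraph V} {𝓒 : Set (Finset V)}
    {w w' D D' : ℕ} (hw : w ≤ w') (hD : D ≤ D') {l : List (Finset (Comparison X V))}
    (h : Argument Γ 𝓒 w D l) : Argument Γ 𝓒 w' D' l := by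
  induction h with
  | nil => exact Argument.nil
  | step a E B _ h1 h2 h3 h4 ih => exact Argument.step a E B ih (h1.trans hD) (h2.trans hw) h3 h4

end H50CP
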