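import Pool.Agent.H50.CP.Ratio

/-! # Graphs with a given maximal matching -/

open scoped Classical
open Finset H630VC

namespace H50CP

/-- the comparison for `α x` and the image of `C` -/
def pullC {X V X' V' : Type*} (α : X' → X) (φ : V' ↪ V) (c : Comparison X V) :
    Comparison X' V' where
  g := fun x => c.g (α x)
  F := fun C => c.F (C.map φ)

/-- arguments can be restricted to smaller graphs -/
theorem Argument.pull {X V X' V' : Type*} {Γ : X → SimpleGraph V} {Γ' : X' → SimpleGraph V'}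
    (α : X' → X) (φ : V' ↪ V)
    (hΓ : ∀ x u v, (Γ (α x)).Adj u v → ∃ u' v', (Γ' x).Adj u' v' ∧ φ u' = u ∧ φ v' = v)
    {𝓒 : Set (Finset V)} {𝓒' : Set (Finset V')} (h𝓒 : ∀ C ∈ 𝓒', C.map φ ∈ 𝓒) {w D : ℕ}
    {l : List (Finset (Comparison X V))} (hl : Argument Γ 𝓒 w D l) :
    Argument Γ' 𝓒' w D (l.map fun b => b.image (pullC α φ)) := by
  induction hl with
  | nil => exact Argument.nil
  | @step l a E B _ hD hw hB h ih =>
    have hinj : Function.Injective (Prod.map φ φ) := φ.injective.prodMap φ.injective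
    have hE : (E.preimage (Prod.map φ φ) hinj.injOn).card ≤ E.card :=
      Finset.card_le_card_of_injOn (Prod.map φ φ) (fun e he => Finset.mem_preimage.1 he)
        hinj.injOn
    refine Argument.step (a.image (pullC α φ)) (E.preimage (Prod.map φ φ) hinj.injOn)
      (B.image fun b => b.image (pullC α φ)) ih (card_image_le.trans hD)
      ((add_le_add hE card_image_le).trans hw) ?_ ?_
    · intro b hb
      obtain ⟨b', hb', rfl⟩ := mem_image.1 hb
      exact List.mem_map.2 ⟨b', hB b' hb', rfl⟩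
    · intro x C hC hcov hprem c hc
      obtain ⟨c', hc', rfl⟩ := mem_image.1 hc
      refine h (α x) (C.map φ) (h𝓒 C hC) ?_ ?_ c' hc'
      · intro e he hadj
        obtain ⟨u, v, huv, hu, hv⟩ := hΓ x _ _ hadj
        rcases hcov (u, v) (Finset.mem_preimage.2 (by
          rw [Prod.map_apply, hu, hv]
          exact he)) huv with g | g
        · exact Or.inl (hu ▸ mem_map_of_mem φ g)
        · exact Or.inr (hv ▸ mem_map_of_mem φ g)
      · intro b hb c'' hc''
        exact hprem _ (mem_image_of_mem _ hb) _ (mem_image_of_mem _ hc'')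

/-- the parameters for ratios close to `2` -/
theorem ratio_params_matched (η : ℝ) (hη : 0 < η) (hη3 : η ≤ 1 / 3) :
    ∃ N : ℕ, ∀ n : ℕ, N ≤ n → ∃ t k : ℕ, t ≤ n ∧ k ≤ n ∧
      (2 - (n : ℝ) ^ (η - 1 / 3)) * ((n + t : ℕ) : ℝ) < 2 * n - k ∧
      (n : ℝ) ^ (1 + 10 / 7 * η) ≤ t * Real.sqrt k := by
  obtain ⟨N1, hN1⟩ := eventually_rpow 64 (η / 14) (by positivity)
  obtain ⟨N2, hN2⟩ := eventually_rpow 8 (2 / 3 + η) (by positivity)
  refine ⟨max (max N1 N2) 1, fun n hn => ?_⟩
  have g1 := hN1 n (((le_max_left _ _).trans (le_max_left _ _)).trans hn)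
  have g2 := hN2 n (((le_max_right _ _).trans (le_max_left _ _)).trans hn)
  have hn1' : 1 ≤ n := (le_max_right _ _).trans hn
  have hn1 : (1 : ℝ) ≤ n := by exact_mod_cast hn1'
  have hnpos : (0 : ℝ) < n := by linarith
  set X : ℝ := (n : ℝ) ^ (2 / 3 + η) with hX
  have hXn : X ≤ n := by
    calc X ≤ (n : ℝ) ^ (1 : ℝ) := Real.rpow_le_rpow_of_exponent_le hn1 (by linarith)
      _ = n := Real.rpow_one _
  set δ : ℝ := (n : ℝ) ^ (η - 1 / 3) with hδ
  have hδpos : 0 < δ := Real.rpow_pos_of_pos hnpos _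
  have hδ1 : δ ≤ 1 := Real.rpow_le_one_of_one_le_of_nonpos hn1 (by linarith)
  have hδX : δ * n = X := by
    rw [hδ, hX]
    nth_rewrite 2 [← Real.rpow_one (n : ℝ)]
    rw [← Real.rpow_add hnpos]
    congr 1
    ring
  set t : ℕ := ⌊X / 4⌋₊ with ht
  have ht_le : (t : ℝ) ≤ X / 4 := Nat.floor_le (by linarith)
  have ht_ge : X / 8 ≤ t := by
    have h1 := Nat.lt_floor_add_one (X / 4)
    rw [← ht] at h1
    linarith
  have htn : t ≤ n := by
    have : (t : ℝ) ≤ n := by linarith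
    exact_mod_cast this
  refine ⟨t, t, htn, htn, ?_, ?_⟩
  · push_cast
    have h0 : (0 : ℝ) ≤ t := Nat.cast_nonneg _
    have h1 : 0 ≤ δ * t := by positivity
    nlinarith
  · have h1 : Real.sqrt (X / 8) ≤ Real.sqrt t := Real.sqrt_le_sqrt ht_ge
    have h2 : (X / 8) * Real.sqrt (X / 8) ≤ t * Real.sqrt t := by gcongr
    have h3 : (1 / 8 : ℝ) ≤ Real.sqrt (1 / 8) := by
      apply Real.le_sqrt_of_sq_le
      norm_num
    have h4 : Real.sqrt (X / 8) = Real.sqrt X * Real.sqrt (1 / 8) := by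
      rw [← Real.sqrt_mul (by linarith)]
      congr 1
      ring
    have h5 : X * Real.sqrt X = (n : ℝ) ^ (1 + 10 / 7 * η) * (n : ℝ) ^ (η / 14) := by
      rw [Real.sqrt_eq_rpow, hX, ← Real.rpow_mul hnpos.le, ← Real.rpow_add hnpos,
        ← Real.rpow_add hnpos]
      congr 1
      ring
    have hXs : 0 ≤ X * Real.sqrt X := by
      have : 0 ≤ X := by linarith
      positivity
    calc (n : ℝ) ^ (1 + 10 / 7 * η) = (n : ℝ) ^ (1 + 10 / 7 * η) * 64 / 64 := by ring
      _ ≤ (n : ℝ) ^ (1 + 10 / 7 * η) * (n : ℝ) ^ (η / 14) / 64 := by gcongr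
      _ = X * Real.sqrt X * (1 / 8) * (1 / 8) := by rw [← h5]; ring
      _ ≤ X * Real.sqrt X * (1 / 8) * Real.sqrt (1 / 8) := by gcongr
      _ = (X / 8) * Real.sqrt (X / 8) := by rw [h4]; ring
      _ ≤ _ := h2

/-- no ratio below `2 - n ^ (η - 1/3)` has short proofs -/
theorem ratio_matched (η : ℝ) (hη : 0 < η) (hη3 : η ≤ 1 / 3) : ∃ N : ℕ, ∀ n : ℕ, N ≤ n →
    ∀ (V : Type) (φ : Fin n ⊕ Fin n ↪ V) (w D : ℕ), 1 ≤ w →
      ((w * D : ℕ) : ℝ) ≤ (n : ℝ) ^ (η / 7) → ∀ A, UpperBound (matched φ) A →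
      ∀ ρ : ℝ, ρ ≤ 2 - (n : ℝ) ^ (η - 1 / 3) → ∀ l, ProvesRatio (matched φ) w D A ρ l →
        (2 : ℝ) ^ ((n : ℝ) ^ (η / 4)) ≤ D * l.length := by
  obtain ⟨N1, hN1⟩ := asymp_gen η hη
  obtain ⟨N2, hN2⟩ := ratio_params_matched η hη hη3
  refine ⟨max (max N1 N2) 1, fun n hn V φ w D hw hwD A hA ρ hρ l hl => ?_⟩
  have hn1 : N1 ≤ n := ((le_max_left _ _).trans (le_max_left _ _)).trans hn
  have hn2 : N2 ≤ n := ((le_max_right _ _).trans (le_max_left _ _)).trans hn
  have hn4 : 1 ≤ n := (le_max_right _ _).trans hn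
  have hn4' : (1 : ℝ) ≤ n := by exact_mod_cast hn4
  obtain ⟨t, k, ht, hk, h1, h2⟩ := hN2 n hn2
  have h4 := rpow_cube (a := 1 + η) hn4 hwD
  have h5 : 1 + η + 3 * (η / 7) = 1 + 10 / 7 * η := by ring
  rw [h5] at h4
  obtain ⟨B, hB0, hBk, -, key⟩ := hN1 n t k w D hn1 ht hk hw (one_le_of_provesRatio hl)
    (h4.trans h2)
  obtain ⟨hl, a, ha, hca⟩ := hl
  have hδ1 : (n : ℝ) ^ (η - 1 / 3) ≤ 1 :=
    Real.rpow_le_one_of_one_le_of_nonpos hn4' (by linarith)
  have hmem : ∀ G ∈ pmGraphs n, G.map φ ∈ matched φ := by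
    intro G hG
    refine ⟨fun i => ?_, fun u v huv => ?_⟩
    · rw [SimpleGraph.map_adj]
      exact ⟨_, _, hG i, rfl, rfl⟩
    · rw [SimpleGraph.map_adj] at huv
      obtain ⟨u', v', -, hu, -⟩ := huv
      exact Or.inl ⟨u', hu⟩
  let α : ↥(pmGraphs n) → ↥(matched φ) := fun G => ⟨G.1.map φ, hmem G.1 G.2⟩
  have hpull := Argument.pull (Γ := fun G : matched φ => G.1) (Γ' := fun G : pmGraphs n => G.1)
    (𝓒' := Set.univ) α φ (by
      intro x u v huv
      exact (SimpleGraph.map_adj _ _ _ _).1 huv) (fun _ _ => Set.mem_univ _) hl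
  have hlen : (l.map fun b => b.image (pullC α φ)).length = l.length := List.length_map _
  rw [← hlen]
  refine key _ _ _ (fun β => ⟨joinGraph (classGraph β), joinGraph_mem _⟩) (fun _ => rfl)
    (fun _ _ => Set.mem_univ _) _ hpull ⟨_, List.mem_map.2 ⟨a, ha, rfl⟩, fun β T hT =>
      ⟨_, mem_image_of_mem _ hca, ?_⟩⟩
  intro hcon
  have hcon' : A ((joinGraph (classGraph β)).map φ) ≤ ρ * (T.map φ).card := hcon
  rw [card_map] at hcon'
  obtain ⟨C, hC, hCA⟩ := hA _ (hmem _ (joinGraph_mem (classGraph β)))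
  have hC' : (C.preimage φ φ.injective.injOn).card ≤ C.card :=
    Finset.card_le_card_of_injOn φ (fun e he => Finset.mem_preimage.1 he) φ.injective.injOn
  have g1 := card_cover_joinGraph (classGraph β) B hB0 (fun C' hC' => by
    have := card_cover_classGraph β C' hC'
    rwa [Fintype.card_fin] at this) (C.preimage φ φ.injective.injOn) (by
      intro u v huv
      have huv' : ((joinGraph (classGraph β)).map φ).Adj (φ u) (φ v) :=
        (SimpleGraph.map_adj _ _ _ _).2 ⟨u, v, huv, rfl, rfl⟩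
      rcases hC _ _ huv' with g | g
      · exact Or.inl (Finset.mem_preimage.2 g)
      · exact Or.inr (Finset.mem_preimage.2 g))
  have g2 : (2 * n : ℝ) ≤ C.card + B := by
    have : 2 * n ≤ C.card + B := g1.trans (Nat.add_le_add_right hC' B)
    exact_mod_cast this
  have g3 : (B : ℝ) ≤ k := by exact_mod_cast hBk
  have g4 : (T.card : ℝ) ≤ ((n + t : ℕ) : ℝ) := by exact_mod_cast hT
  have g5 : ρ * (T.card : ℝ) ≤ (2 - (n : ℝ) ^ (η - 1 / 3)) * ((n + t : ℕ) : ℝ) := by
    calc ρ * (T.card : ℝ) ≤ (2 - (n : ℝ) ^ (η - 1 / 3)) * T.card :=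
          mul_le_mul_of_nonneg_right hρ (by positivity)
      _ ≤ _ := mul_le_mul_of_nonneg_left g4 (by linarith)
  linarith

/-- the comparison `s.card ≤ #{u ∈ C | u is an end of an edge in s}` -/
noncomputable def countLineM {V : Type*} {n : ℕ} (φ : Fin n ⊕ Fin n ↪ V) (s : Finset (Fin n)) :
    Comparison (matched φ) V where
  g := fun _ => s.card
  F := fun C => ((C.filter fun v => ∃ u, φ u = v ∧ idx u ∈ s).card : ℝ)

theorem count_matched {V : Type*} {n : ℕ} (φ : Fin n ⊕ Fin n ↪ V) (s : Finset (Fin n)) :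
    ∃ l, Argument (fun G : matched φ => G.1) Set.univ 2 1 l ∧ {countLineM φ s} ∈ l ∧
      l.length = s.card + 1 := by
  induction s using Finset.induction_on with
  | empty =>
    refine ⟨[{countLineM φ ∅}], Argument.step _ ∅ ∅ Argument.nil (by simp) (by simp) (by simp) ?_,
      by simp, by simp⟩
    intro x C _ _ _ c hc
    rw [mem_singleton] at hc
    subst hc
    simp [Comparison.Holds, countLineM]
  | insert i s hi ih =>
    obtain ⟨l, h1, h2, h3⟩ := ih
    refine ⟨{countLineM φ (insert i s)} :: l, Argument.step _ {(φ (Sum.inl i), φ (Sum.inr i))}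
      {{countLineM φ s}} h1 (by simp) (by simp) (by simpa using h2) ?_, List.mem_cons_self, ?_⟩
    · intro x C _ hE hB c hc
      rw [mem_singleton] at hc
      subst hc
      have g1 := hB _ (mem_singleton_self _) _ (mem_singleton_self _)
      have g2 := hE (φ (Sum.inl i), φ (Sum.inr i)) (mem_singleton_self _) (x.2.1 i)
      simp only [Comparison.Holds, countLineM] at g1 ⊢
      have g3 : ∃ u, φ u ∈ C ∧ idx u = i := by
        rcases g2 with h | h
        · exact ⟨_, h, rfl⟩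
        · exact ⟨_, h, rfl⟩
      obtain ⟨u, hu, hui⟩ := g3
      have g4 : insert (φ u) (C.filter fun v => ∃ u, φ u = v ∧ idx u ∈ s) ⊆
          C.filter fun v => ∃ u, φ u = v ∧ idx u ∈ insert i s := by
        intro v hv
        rcases mem_insert.1 hv with rfl | hv
        · rw [mem_filter]
          exact ⟨hu, u, rfl, by rw [hui]; exact mem_insert_self _ _⟩
        · rw [mem_filter] at hv ⊢
          obtain ⟨h1, u', h2, h3⟩ := hv
          exact ⟨h1, u', h2, mem_insert_of_mem h3⟩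
      have g5 : φ u ∉ C.filter fun v => ∃ u, φ u = v ∧ idx u ∈ s := by
        rw [mem_filter]
        rintro ⟨-, u', h2, h3⟩
        rw [φ.injective h2, hui] at h3
        exact hi h3
      have g6 := card_le_card g4
      rw [card_insert_of_notMem g5] at g6
      have g7 : (((C.filter fun v => ∃ u, φ u = v ∧ idx u ∈ s).card : ℝ)) + 1 ≤
          ((C.filter fun v => ∃ u, φ u = v ∧ idx u ∈ insert i s).card : ℝ) := by
        exact_mod_cast g6
      rw [card_insert_of_notMem hi]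
      push_cast
      linarith
    · rw [List.length_cons, h3, card_insert_of_notMem hi]

/-- all comparisons `a ≤ ρ * C.card` with `a ≤ ρ * n` have short proofs -/
theorem count_ratio {V : Type*} {n : ℕ} (φ : Fin n ⊕ Fin n ↪ V) (a ρ : ℝ) (hρ : 0 ≤ ρ)
    (h : a ≤ ρ * n) :
    ∃ l, ProvesRatio (matched φ) 2 1 (fun _ => a) ρ l ∧ l.length = n + 2 := by
  obtain ⟨l, h1, h2, h3⟩ := count_matched φ univ
  refine ⟨{⟨fun _ => a, fun C => ρ * C.card⟩} :: l,
    ⟨Argument.step _ ∅ {{countLineM φ univ}} h1 (by simp) (by simp) (by simpa using h2) ?_,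
      _, List.mem_cons_self, mem_singleton_self _⟩, ?_⟩
  · intro x C _ _ hB c hc
    rw [mem_singleton] at hc
    subst hc
    have g1 := hB _ (mem_singleton_self _) _ (mem_singleton_self _)
    simp only [Comparison.Holds, countLineM, card_univ, Fintype.card_fin] at g1 ⊢
    have g2 : (((C.filter fun v => ∃ u, φ u = v ∧ idx u ∈ (univ : Finset (Fin n))).card : ℝ)) ≤
        C.card := by exact_mod_cast card_filter_le _ _
    calc a ≤ ρ * n := h
      _ ≤ ρ * C.card := mul_le_mul_of_nonneg_left (g1.trans g2) hρ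
  · rw [List.length_cons, h3, card_univ, Fintype.card_fin]

/-- the ratio two has short proofs -/
theorem ratio_two_matched {V : Type*} {n : ℕ} (φ : Fin n ⊕ Fin n ↪ V) :
    UpperBound (matched φ) (fun _ => 2 * (n : ℝ)) ∧
    ∃ l, ProvesRatio (matched φ) 2 1 (fun _ => 2 * (n : ℝ)) 2 l ∧ l.length = n + 2 := by
  refine ⟨fun G hG => ⟨univ.map φ, fun u v huv => ?_, ?_⟩,
    count_ratio φ _ _ (by norm_num) le_rfl⟩
  · rcases hG.2 u v huv with ⟨u', rfl⟩ | ⟨v', rfl⟩
    · exact Or.inl (mem_map_of_mem φ (mem_univ _))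
    · exact Or.inr (mem_map_of_mem φ (mem_univ _))
  · rw [card_map, card_univ, Fintype.card_sum, Fintype.card_fin]
    push_cast
    linarith

/-- for perfect matchings a slightly better ratio has short proofs -/
theorem ratio_perfect {V : Type*} {n : ℕ} (φ : Fin n ⊕ Fin n ↪ V) (hφ : Function.Surjective φ)
    (hn : 1 ≤ n) : UpperBound (matched φ) (fun _ => 2 * (n : ℝ) - 1) ∧
    ∃ l, ProvesRatio (matched φ) 2 1 (fun _ => 2 * (n : ℝ) - 1) (2 - 1 / n) l ∧
      l.length = n + 2 := by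
  have hn' : (1 : ℝ) ≤ n := by exact_mod_cast hn
  have h1 : (1 : ℝ) / n ≤ 1 := by
    rw [div_le_one (by linarith)]
    exact hn'
  refine ⟨fun G hG => ⟨(univ.map φ).erase (φ (Sum.inl ⟨0, hn⟩)), fun u v huv => ?_, ?_⟩,
    count_ratio φ _ _ (by linarith) ?_⟩
  · obtain ⟨u', rfl⟩ := hφ u
    obtain ⟨v', rfl⟩ := hφ v
    by_cases h : φ u' = φ (Sum.inl ⟨0, hn⟩)
    · refine Or.inr (mem_erase.2 ⟨fun h' => huv.ne (h.trans h'.symm),
        mem_map_of_mem φ (mem_univ _)⟩)
    · exact Or.inl (mem_erase.2 ⟨h, mem_map_of_mem φ (mem_univ _)⟩)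
  · rw [card_erase_of_mem (mem_map_of_mem φ (mem_univ _)), card_map, card_univ,
      Fintype.card_sum, Fintype.card_fin, Nat.cast_sub (by omega)]
    push_cast
    linarith
  · have : (1 : ℝ) / n * n = 1 := by
      field_simp
    linarith [this, sub_mul 2 (1 / (n : ℝ)) n]

end H50CP
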