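import Pool.Agent.H50.CP.Final

/-! # Proofs of approximation guarantees -/

open scoped Classical
open Finset H630VC

namespace H50CP

theorem card_le_of_argument {X V : Type*} {Γ : X → SimpleGraph V} {𝓒 : Set (Finset V)} {w D : ℕ}
    {l : List (Finset (Comparison X V))} (hl : Argument Γ 𝓒 w D l) : ∀ b ∈ l, b.card ≤ D := by
  induction hl with
  | nil => simp
  | step a E B _ h _ _ _ ih =>
    intro b hb
    rcases List.mem_cons.1 hb with rfl | hb
    · exact h
    · exact ih b hb

theorem one_le_of_provesRatio {V : Type*} {𝓖 : Set (SimpleGraph V)} {w D : ℕ}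
    {A : SimpleGraph V → ℝ} {ρ : ℝ} {l : List (Finset (Comparison 𝓖 V))}
    (h : ProvesRatio 𝓖 w D A ρ l) : 1 ≤ D := by
  obtain ⟨hl, a, ha, hc⟩ := h
  exact (card_pos.2 ⟨_, hc⟩).trans_le (card_le_of_argument hl a ha)

/-- no ratio below two has short proofs -/
theorem ratio_pm (c : ℝ) (hc : c < 2) : ∃ N : ℕ, ∀ n : ℕ, N ≤ n → ∀ w D : ℕ, 1 ≤ w →
    ((w * D : ℕ) : ℝ) ≤ (n : ℝ) ^ (1 / 30 : ℝ) → ∀ A, UpperBound (pmGraphs n) A →
      ∀ l, ProvesRatio (pmGraphs n) w D A c l →
        (2 : ℝ) ^ ((n : ℝ) ^ (1 / 12 : ℝ)) ≤ D * l.length := by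
  obtain ⟨N1, hN1⟩ := asymp_gen (1 / 3) (by norm_num)
  obtain ⟨N2, hN2⟩ := ratio_params_pm (max c 0) (max_lt hc (by norm_num))
  refine ⟨max (max N1 N2) 1, fun n hn w D hw hwD A hA l hl => ?_⟩
  have hn1 : N1 ≤ n := ((le_max_left _ _).trans (le_max_left _ _)).trans hn
  have hn2 : N2 ≤ n := ((le_max_right _ _).trans (le_max_left _ _)).trans hn
  have hn4 : 1 ≤ n := (le_max_right _ _).trans hn
  have hn4' : (1 : ℝ) ≤ n := by exact_mod_cast hn4
  obtain ⟨t, k, ht, hk, h1, h2⟩ := hN2 n hn2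
  have h4 := rpow_cube (a := 1 + 1 / 3) hn4 hwD
  have h5 : (n : ℝ) ^ (1 + 1 / 3 + 3 * (1 / 30) : ℝ) ≤ (n : ℝ) ^ (1 + 4 / 9 : ℝ) :=
    Real.rpow_le_rpow_of_exponent_le hn4' (by norm_num)
  obtain ⟨B, hB0, hBk, -, key⟩ := hN1 n t k w D hn1 ht hk hw (one_le_of_provesRatio hl)
    (h4.trans (h5.trans h2))
  obtain ⟨hl, a, ha, hca⟩ := hl
  have e2 : (1 / 3 : ℝ) / 4 = 1 / 12 := by norm_num
  rw [e2] at key
  refine key _ _ _ (fun β => ⟨joinGraph (classGraph β), joinGraph_mem _⟩) (fun _ => rfl)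
    (fun _ _ => Set.mem_univ _) l hl ⟨a, ha, fun β T hT => ⟨_, hca, ?_⟩⟩
  intro hcon
  have hcon' : A (joinGraph (classGraph β)) ≤ c * T.card := hcon
  obtain ⟨C, hC, hCA⟩ := hA _ (joinGraph_mem (classGraph β))
  have g1 := card_cover_joinGraph (classGraph β) B hB0 (fun C' hC' => by
    have := card_cover_classGraph β C' hC'
    rwa [Fintype.card_fin] at this) C hC
  have g2 : (2 * n : ℝ) ≤ C.card + B := by exact_mod_cast g1
  have g3 : (B : ℝ) ≤ k := by exact_mod_cast hBk
  have g4 : (T.card : ℝ) ≤ ((n + t : ℕ) : ℝ) := by exact_mod_cast hT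
  have g5 : c * (T.card : ℝ) ≤ max c 0 * ((n + t : ℕ) : ℝ) := by
    calc c * (T.card : ℝ) ≤ max c 0 * T.card :=
          mul_le_mul_of_nonneg_right (le_max_left _ _) (by positivity)
      _ ≤ _ := mul_le_mul_of_nonneg_left g4 (le_max_right _ _)
  linarith

/-- no ratio `n ^ (1/2 - η)` has short proofs on all graphs -/
theorem ratio_all (η : ℝ) (hη : 0 < η) (hη2 : η ≤ 1 / 2) : ∃ N : ℕ, ∀ n : ℕ, N ≤ n →
    ∀ w D : ℕ, 1 ≤ w → ((w * D : ℕ) : ℝ) ≤ (n : ℝ) ^ (η / 12) →
      ∀ A, UpperBound (Set.univ : Set (SimpleGraph (Fin n))) A →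
      ∀ ρ : ℝ, ρ ≤ (n : ℝ) ^ (1 / 2 - η) → ∀ l, ProvesRatio Set.univ w D A ρ l →
        (2 : ℝ) ^ ((n : ℝ) ^ (η / 16)) ≤ D * l.length := by
  obtain ⟨N1, hN1⟩ := asymp_gen (η / 4) (by positivity)
  obtain ⟨N2, hN2⟩ := ratio_params_all η hη hη2
  refine ⟨max (max N1 N2) 1, fun n hn w D hw hwD A hA ρ hρ l hl => ?_⟩
  have hn1 : N1 ≤ n := ((le_max_left _ _).trans (le_max_left _ _)).trans hn
  have hn2 : N2 ≤ n := ((le_max_right _ _).trans (le_max_left _ _)).trans hn
  have hn4 : 1 ≤ n := (le_max_right _ _).trans hn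
  obtain ⟨t, k, ht, hk, ht1, h1, h2⟩ := hN2 n hn2
  have h4 := rpow_cube (a := 1 + η / 4) hn4 hwD
  have e1 : 1 + η / 4 + 3 * (η / 12) = 1 + η / 2 := by ring
  rw [e1] at h4
  obtain ⟨B, hB0, hBk, key, -⟩ := hN1 n t k w D hn1 ht hk hw (one_le_of_provesRatio hl)
    (h4.trans h2)
  obtain ⟨hl, a, ha, hca⟩ := hl
  have e2 : η / 4 / 4 = η / 16 := by ring
  rw [e2] at key
  refine key _ _ _ (fun β => ⟨classGraph β, Set.mem_univ _⟩) (fun _ => rfl)
    (fun _ _ => Set.mem_univ _) l hl ⟨a, ha, fun β T hT => ⟨_, hca, ?_⟩⟩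
  intro hcon
  have hcon' : A (classGraph β) ≤ ρ * T.card := hcon
  obtain ⟨C, hC, hCA⟩ := hA _ (Set.mem_univ (classGraph β))
  have g1 := card_cover_classGraph β C hC
  rw [Fintype.card_fin] at g1
  have g2 : (n : ℝ) ≤ C.card + B := by exact_mod_cast g1
  have g3 : (B : ℝ) ≤ k := by exact_mod_cast hBk
  have g4 : (T.card : ℝ) ≤ t := by exact_mod_cast hT
  have g5 : ρ * (T.card : ℝ) ≤ (n : ℝ) ^ (1 / 2 - η) * t := by
    calc ρ * (T.card : ℝ) ≤ (n : ℝ) ^ (1 / 2 - η) * T.card :=
          mul_le_mul_of_nonneg_right hρ (by positivity)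
      _ ≤ _ := mul_le_mul_of_nonneg_left g4 (by positivity)
  linarith

/-- the index of a vertex -/
def idx {n : ℕ} : Fin n ⊕ Fin n → Fin n := Sum.elim id id

/-- the comparison `s.card ≤ #{v ∈ C | idx v ∈ s}` -/
noncomputable def countLine (n : ℕ) (s : Finset (Fin n)) :
    Comparison (pmGraphs n) (Fin n ⊕ Fin n) where
  g := fun _ => s.card
  F := fun C => ((C.filter fun v => idx v ∈ s).card : ℝ)

theorem count_argument (n : ℕ) (s : Finset (Fin n)) :
    ∃ l, Argument (fun G : pmGraphs n => G.1) Set.univ 2 1 l ∧ {countLine n s} ∈ l ∧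
      l.length = s.card + 1 := by
  induction s using Finset.induction_on with
  | empty =>
    refine ⟨[{countLine n ∅}], Argument.step _ ∅ ∅ Argument.nil (by simp) (by simp) (by simp) ?_,
      by simp, by simp⟩
    intro x C _ _ _ c hc
    rw [mem_singleton] at hc
    subst hc
    simp [Comparison.Holds, countLine]
  | insert i s hi ih =>
    obtain ⟨l, h1, h2, h3⟩ := ih
    refine ⟨{countLine n (insert i s)} :: l, Argument.step _ {(Sum.inl i, Sum.inr i)}
      {{countLine n s}} h1 (by simp) (by simp) (by simpa using h2) ?_, List.mem_cons_self, ?_⟩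
    · intro x C _ hE hB c hc
      rw [mem_singleton] at hc
      subst hc
      have g1 := hB _ (mem_singleton_self _) _ (mem_singleton_self _)
      have g2 := hE (Sum.inl i, Sum.inr i) (mem_singleton_self _) (x.2 i)
      simp only [Comparison.Holds, countLine] at g1 ⊢
      have g3 : ∃ v ∈ C, idx v = i := by
        rcases g2 with h | h
        · exact ⟨_, h, rfl⟩
        · exact ⟨_, h, rfl⟩
      obtain ⟨v, hv, hvi⟩ := g3
      have g4 : insert v (C.filter fun v => idx v ∈ s) ⊆ C.filter fun v => idx v ∈ insert i s := by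
        intro u hu
        rcases mem_insert.1 hu with rfl | hu
        · rw [mem_filter, hvi]
          exact ⟨hv, mem_insert_self _ _⟩
        · rw [mem_filter] at hu ⊢
          exact ⟨hu.1, mem_insert_of_mem hu.2⟩
      have g5 : v ∉ C.filter fun v => idx v ∈ s := by
        rw [mem_filter, hvi]
        exact fun h => hi h.2
      have g6 := card_le_card g4
      rw [card_insert_of_notMem g5] at g6
      have g7 : (((C.filter fun v => idx v ∈ s).card : ℝ)) + 1 ≤
          ((C.filter fun v => idx v ∈ insert i s).card : ℝ) := by exact_mod_cast g6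
      rw [card_insert_of_notMem hi]
      push_cast
      linarith
    · rw [List.length_cons, h3, card_insert_of_notMem hi]

/-- the ratio two has short proofs -/
theorem ratio_two (n : ℕ) : UpperBound (pmGraphs n) (fun _ => 2 * (n : ℝ)) ∧
    ∃ l, ProvesRatio (pmGraphs n) 2 1 (fun _ => 2 * (n : ℝ)) 2 l ∧ l.length = n + 2 := by
  constructor
  · intro G _
    refine ⟨univ, fun u v _ => Or.inl (mem_univ u), ?_⟩
    rw [card_univ, Fintype.card_sum, Fintype.card_fin]
    push_cast
    linarith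
  · obtain ⟨l, h1, h2, h3⟩ := count_argument n univ
    refine ⟨{⟨fun _ => 2 * (n : ℝ), fun C => 2 * C.card⟩} :: l,
      ⟨Argument.step _ ∅ {{countLine n univ}} h1 (by simp) (by simp) (by simpa using h2) ?_,
        _, List.mem_cons_self, mem_singleton_self _⟩, ?_⟩
    · intro x C _ _ hB c hc
      rw [mem_singleton] at hc
      subst hc
      have g1 := hB _ (mem_singleton_self _) _ (mem_singleton_self _)
      simp only [Comparison.Holds, countLine, mem_univ, filter_true, card_univ,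
        Fintype.card_fin] at g1 ⊢
      linarith
    · rw [List.length_cons, h3, card_univ, Fintype.card_fin]

/-- the ratio `16 √(n log n)` has short proofs on all graphs -/
theorem ratio_root (n : ℕ) (hn : 2 ≤ n) :
    ∃ A, UpperBound (Set.univ : Set (SimpleGraph (Fin n))) A ∧
      ∃ l, ProvesRatio Set.univ 2 1 A (16 * Real.sqrt (n * Real.log n)) l ∧
        l.length ≤ n ^ 12 + 1 := by
  obtain ⟨l, f, h1, h2, h3, h4⟩ := upper_bound n hn
  let Γ : ↥(Set.univ : Set (SimpleGraph (Fin n))) → SimpleGraph (Fin n) := fun G => G.1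
  refine ⟨f, fun G _ => (h4 G).1, {⟨fun G => f G.1, fun C =>
    16 * Real.sqrt (n * Real.log n) * C.card⟩} :: l.map (fun f => {gateLine Γ f}),
    ⟨Argument.step _ ∅ {{gateLine Γ f}} (argument_of_prog _ _ h1) (by simp) (by simp) ?_ ?_,
      _, List.mem_cons_self, mem_singleton_self _⟩, ?_⟩
  · intro b hb
    rw [mem_singleton] at hb
    subst hb
    exact List.mem_map.2 ⟨f, h2, rfl⟩
  · intro x C _ _ hB c hc
    rw [mem_singleton] at hc
    subst hc
    have g1 := hB _ (mem_singleton_self _) _ (mem_singleton_self _)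
    simp only [Comparison.Holds, gateLine] at g1 ⊢
    exact g1.trans ((h4 (touchGraph C)).2 C (isCover_touchGraph C))
  · rw [List.length_cons, List.length_map]
    omega

/-- every monotone function of graphs is computed by a circuit of monotone real gates -/
theorem exists_prog_monotone {V : Type*} [Fintype V] (h : SimpleGraph V → ℝ)
    (hmono : ∀ G H, G ≤ H → h G ≤ h H) : ∃ l, Prog (graphInputs V) l ∧ h ∈ l := by
  have hc : ∀ c : ℝ, (fun _ => c) ∈ graphInputs V := fun c => Or.inr ⟨c, rfl⟩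
  have hedge : ∀ u v : V, Comp905 (graphInputs V) 1 (fun G => G.Adj u v) := by
    intro u v
    refine ⟨[edgeBit u v], Prog.input Prog.nil (Or.inl ⟨u, v, rfl⟩), ?_, by simp⟩
    rw [List.mem_singleton]
    rfl
  have hfin : Finite (SimpleGraph V) :=
    Finite.of_injective (fun G : SimpleGraph V => G.Adj) fun G H h => SimpleGraph.ext h
  have : Fintype (SimpleGraph V) := Fintype.ofFinite _
  set m : ℝ := h ⊥ with hm
  have hmle : ∀ G, m ≤ h G := fun G => hmono _ _ bot_le
  have key : ∀ S : Finset (SimpleGraph V), ∃ (l : List (SimpleGraph V → ℝ))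
      (f : SimpleGraph V → ℝ), Prog (graphInputs V) l ∧ f ∈ l ∧
      ∀ G, (∀ H ∈ S, H ≤ G → h H ≤ f G) ∧ m ≤ f G ∧ f G ≤ h G := by
    intro S
    induction S using Finset.induction_on with
    | empty =>
      exact ⟨[fun _ => m], fun _ => m, Prog.input Prog.nil (hc m), by simp,
        fun G => ⟨by simp, le_rfl, hmle G⟩⟩
    | insert H S _ ih =>
      obtain ⟨l, f, h1, h2, h3⟩ := ih
      obtain ⟨l', g1, g2, -⟩ := comp_and905 (hc 1)
        ((univ : Finset (V × V)).filter (fun e => H.Adj e.1 e.2))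
        (fun (e : V × V) G => G.Adj e.1 e.2) fun e _ => hedge e.1 e.2
      have hmonoφ : Mono2 fun a b => max a (if 1 ≤ b then h H else m) := by
        intro a a' b b' ha hb
        apply max_le_max ha
        split_ifs with e1 e2 e2
        · exact le_rfl
        · exact absurd (e1.trans hb) e2
        · exact hmle H
        · exact le_rfl
      refine ⟨_ :: (l ++ l'), _, Prog.gate (φ := fun a b => max a (if 1 ≤ b then h H else m))
        (h1.append g1) hmonoφ (List.mem_append_left _ h2) (List.mem_append_right _ g2),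
        List.mem_cons_self, fun G => ?_⟩
      obtain ⟨e1, e2, e3⟩ := h3 G
      by_cases hH : ∀ e ∈ (univ : Finset (V × V)).filter (fun e => H.Adj e.1 e.2), G.Adj e.1 e.2
      · have hHG : H ≤ G := fun u v huv => hH (u, v) (mem_filter.2 ⟨mem_univ _, huv⟩)
        simp only [if_pos hH, le_refl, if_true]
        refine ⟨fun H' hH' hle => ?_, e2.trans (le_max_left _ _), max_le e3 (hmono _ _ hHG)⟩
        rcases mem_insert.1 hH' with rfl | hH'
        · exact le_max_right _ _
        · exact (e1 H' hH' hle).trans (le_max_left _ _)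
      · have hHG : ¬ H ≤ G := fun hle => hH fun e he => hle (mem_filter.1 he).2
        simp only [if_neg hH]
        have h01 : ¬ (1 : ℝ) ≤ 0 := by norm_num
        simp only [if_neg h01]
        refine ⟨fun H' hH' hle => ?_, e2.trans (le_max_left _ _), max_le e3 (hmle G)⟩
        rcases mem_insert.1 hH' with rfl | hH'
        · exact absurd hle hHG
        · exact (e1 H' hH' hle).trans (le_max_left _ _)
  obtain ⟨l, f, h1, h2, h3⟩ := key univ
  refine ⟨l, h1, ?_⟩
  have : h = f := by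
    funext G
    exact le_antisymm ((h3 G).1 G (mem_univ _) le_rfl) (h3 G).2.2
  rwa [this]

/-- the ratio one has (long) proofs -/
theorem ratio_one {V : Type*} [Fintype V] (𝓖 : Set (SimpleGraph V)) :
    ∃ A, UpperBound 𝓖 A ∧ ∃ l, ProvesRatio 𝓖 2 1 A 1 l := by
  have hne : ∀ G : SimpleGraph V, ∃ m, ∃ C : Finset V, IsCover G C ∧ C.card = m :=
    fun G => ⟨_, univ, fun u v _ => Or.inl (mem_univ u), rfl⟩
  let vc : SimpleGraph V → ℕ := fun G => Nat.find (hne G)
  have hvc : ∀ G, ∃ C : Finset V, IsCover G C ∧ C.card = vc G := fun G => Nat.find_spec (hne G)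
  have hvc' : ∀ G C, IsCover G C → vc G ≤ C.card := fun G C hC => Nat.find_min' (hne G) ⟨C, hC, rfl⟩
  obtain ⟨l, h1, h2⟩ := exists_prog_monotone (fun G => (vc G : ℝ)) (by
    intro G H hGH
    obtain ⟨C, hC, hCc⟩ := hvc H
    have : vc G ≤ vc H := by
      rw [← hCc]
      exact hvc' G C fun u v huv => hC u v (hGH huv)
    exact_mod_cast this)
  let Γ : ↥𝓖 → SimpleGraph V := fun G => G.1
  refine ⟨fun G => vc G, fun G _ => ?_, {⟨fun G => vc G.1, fun C => 1 * C.card⟩} ::
    l.map (fun f => {gateLine Γ f}),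
    Argument.step _ ∅ {{gateLine Γ fun G => (vc G : ℝ)}} (argument_of_prog _ _ h1) (by simp)
      (by simp) ?_ ?_, _, List.mem_cons_self, mem_singleton_self _⟩
  · obtain ⟨C, hC, hCc⟩ := hvc G
    exact ⟨C, hC, by rw [hCc]⟩
  · intro b hb
    rw [mem_singleton] at hb
    subst hb
    exact List.mem_map.2 ⟨_, h2, rfl⟩
  · intro x C _ _ hB c hc
    rw [mem_singleton] at hc
    subst hc
    have g1 := hB _ (mem_singleton_self _) _ (mem_singleton_self _)
    simp only [Comparison.Holds, gateLine] at g1 ⊢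
    have g2 : (vc (touchGraph C) : ℝ) ≤ C.card := by
      exact_mod_cast hvc' _ C (isCover_touchGraph C)
    linarith

end H50CP
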